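import Mathlib

/-!
A finite measure on `ℝ` whose Fourier transform is `O((1+|ξ|)^(-γ))` with `γ > 1/2` is absolutely
continuous with respect to Lebesgue measure.
-/

namespace Pool.Agent.Lib.MP_2cc37a_an

open MeasureTheory Set Filter Topology
open scoped Real SchwartzMap FourierTransform ContDiff Manifold

/-- `e(t) = exp(2πit)`. -/
noncomputable def ee (t : ℝ) : ℂ := Complex.exp (↑(2 * π * t) * Complex.I)

theorem norm_ee (t : ℝ) : ‖ee t‖ = 1 := Complex.norm_exp_ofReal_mul_I _

theorem ee_add (s t : ℝ) : ee (s + t) = ee s * ee t := by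
  unfold ee
  rw [← Complex.exp_add]
  congr 1
  push_cast
  ring

theorem ee_zero : ee 0 = 1 := by simp [ee]

@[fun_prop] theorem continuous_ee : Continuous ee := by
  unfold ee
  fun_prop

section

variable {μ : Measure ℝ} [IsFiniteMeasure μ]

theorem integrable_ee_mul (ξ : ℝ) : Integrable (fun x => ee (x * ξ)) μ := by
  refine Integrable.of_bound (C := 1) ?_ (Eventually.of_forall fun x => (norm_ee _).le)
  exact (continuous_ee.comp (by fun_prop)).aestronglyMeasurable

theorem continuous_ft : Continuous (fun ξ : ℝ => ∫ x, ee (x * ξ) ∂μ) := by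
  refine continuous_of_dominated (bound := fun _ => 1) ?_ ?_ ?_ ?_
  · intro ξ
    exact (integrable_ee_mul ξ).aestronglyMeasurable
  · intro ξ
    exact Eventually.of_forall fun x => (norm_ee _).le
  · exact integrable_const _
  · exact Eventually.of_forall fun x => continuous_ee.comp (by fun_prop)

theorem schwartz_integral (φ : 𝓢(ℝ, ℂ)) :
    ∫ x, φ x ∂μ = ∫ ξ, (𝓕 φ) ξ * ∫ x, ee (x * ξ) ∂μ := by
  have h1 : ∀ x, φ x = ∫ ξ, ee (x * ξ) * (𝓕 φ) ξ := by
    intro x
    have h := FourierTransform.fourierInv_fourier_eq (F := 𝓢(ℝ, ℂ)) φ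
    have h2 : φ x = 𝓕⁻ (𝓕 φ) x := by rw [h]
    rw [h2, SchwartzMap.fourierInv_coe, Real.fourierInv_eq']
    refine integral_congr_ae (Eventually.of_forall fun ξ => ?_)
    simp only [ee, smul_eq_mul]
    congr 3
  simp_rw [h1]
  rw [integral_integral_swap]
  · refine integral_congr_ae (Eventually.of_forall fun ξ => ?_)
    change ∫ x, ee (x * ξ) * (𝓕 φ) ξ ∂μ = _
    rw [integral_mul_const, mul_comm]
  · have hφ : Integrable (fun ξ : ℝ => (𝓕 φ) ξ) := (𝓕 φ).integrable
    have h2 : Integrable (fun p : ℝ × ℝ => (1:ℂ) * (𝓕 φ) p.2) (μ.prod volume) :=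
      Integrable.mul_prod (f := fun _ => (1:ℂ)) (g := fun ξ => (𝓕 φ) ξ) (integrable_const _) hφ
    refine h2.mono ?_ ?_
    · have hc : Continuous (Function.uncurry fun x ξ : ℝ => ee (x * ξ) * (𝓕 φ) ξ) := by
        have : Continuous (fun ξ : ℝ => (𝓕 φ) ξ) := (𝓕 φ).continuous
        exact (continuous_ee.comp (by fun_prop)).mul (this.comp continuous_snd)
      exact hc.aestronglyMeasurable
    · refine Eventually.of_forall fun p => ?_
      simp [Function.uncurry, norm_ee]

theorem l2_bound (C γ : ℝ) (hγ : 1 / 2 < γ)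
    (h : ∀ ξ : ℝ, ‖∫ x, ee (x * ξ) ∂μ‖ ≤ C * (1 + |ξ|) ^ (-γ)) :
    ∃ D : ℝ, 0 ≤ D ∧ ∀ φ : 𝓢(ℝ, ℂ), ‖∫ x, φ x ∂μ‖ ≤ D * (∫ x, ‖φ x‖ ^ 2) ^ (1 / 2 : ℝ) := by
  set F : ℝ → ℂ := fun ξ => ∫ x, ee (x * ξ) ∂μ with hF
  have hFc : Continuous F := continuous_ft
  have hsq : Integrable (fun ξ => ‖F ξ‖ ^ 2) := by
    have h1 : Integrable (fun ξ : ℝ => C ^ 2 * (1 + ‖ξ‖) ^ (-(2 * γ))) := by
      refine Integrable.const_mul (integrable_one_add_norm ?_) _
      simp only [Module.finrank_self, Nat.cast_one]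
      linarith
    refine h1.mono' (hFc.norm.pow 2).aestronglyMeasurable (Eventually.of_forall fun ξ => ?_)
    rw [Real.norm_of_nonneg (by positivity)]
    have h2 := h ξ
    have h3 : ‖F ξ‖ ^ 2 ≤ (C * (1 + |ξ|) ^ (-γ)) ^ 2 :=
      pow_le_pow_left₀ (norm_nonneg _) h2 2
    refine h3.trans (le_of_eq ?_)
    rw [mul_pow, Real.norm_eq_abs, ← Real.rpow_natCast ((1 + |ξ|) ^ (-γ)) 2, ← Real.rpow_mul
      (by positivity)]
    congr 2
    push_cast
    ring
  have hF2 : MemLp F 2 := by
    rw [memLp_two_iff_integrable_sq_norm hFc.aestronglyMeasurable]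
    exact hsq
  refine ⟨(∫ ξ, ‖F ξ‖ ^ (2:ℝ)) ^ (1 / 2 : ℝ), by positivity, fun φ => ?_⟩
  rw [schwartz_integral φ]
  have h1 : ‖∫ ξ, (𝓕 φ) ξ * F ξ‖ ≤ ∫ ξ, ‖F ξ‖ * ‖(𝓕 φ) ξ‖ := by
    refine (norm_integral_le_integral_norm _).trans (le_of_eq ?_)
    refine integral_congr_ae (Eventually.of_forall fun ξ => ?_)
    simp only [norm_mul]
    ring
  have h2 := integral_mul_norm_le_Lp_mul_Lq (μ := volume) (f := F) (g := fun ξ => (𝓕 φ) ξ)
    Real.HolderConjugate.two_two (by simpa using hF2)
    (by simpa using (𝓕 φ).memLp 2 volume)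
  refine h1.trans (h2.trans (le_of_eq ?_))
  congr 2
  have h3 := SchwartzMap.integral_norm_sq_fourier φ
  rw [← h3]
  refine integral_congr_ae (Eventually.of_forall fun ξ => ?_)
  simp

theorem ac_of_fourier_decay (C γ : ℝ) (hγ : 1 / 2 < γ)
    (h : ∀ ξ : ℝ, ‖∫ x, ee (x * ξ) ∂μ‖ ≤ C * (1 + |ξ|) ^ (-γ)) : μ ≪ (volume : Measure ℝ) := by
  obtain ⟨D, hD, hb⟩ := l2_bound C γ hγ h
  -- compact null sets are null
  have key : ∀ K : Set ℝ, IsCompact K → volume K = 0 → μ K = 0 := by
    intro K hK h0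
    have hle : ∀ ε : ℝ, 0 < ε → μ.real K ≤ D * ε ^ (1 / 2 : ℝ) := by
      intro ε hε
      obtain ⟨U, hKU, hU, hUε⟩ := K.exists_isOpen_lt_of_lt (ENNReal.ofReal ε) (μ := volume)
        (by rw [h0]; exact ENNReal.ofReal_pos.mpr hε)
      obtain ⟨V, hV, hKV, hVU, hVc⟩ := exists_open_between_and_isCompact_closure hK hU hKU
      obtain ⟨f, hf0, hf1, hf⟩ := exists_contMDiffMap_zero_one_of_isClosed (n := ⊤) 𝓘(ℝ, ℝ)
        (s := Vᶜ) (t := K) hV.isClosed_compl hK.isClosed (by
          rw [Set.disjoint_compl_left_iff_subset]; exact hKV)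
      have hfd : ContDiff ℝ ∞ (f : ℝ → ℝ) := by
        have := f.contMDiff
        exact contMDiff_iff_contDiff.mp this
      have hfs : HasCompactSupport (f : ℝ → ℝ) := by
        refine HasCompactSupport.intro hVc fun x hx => ?_
        exact hf0 (fun hx' => hx (subset_closure hx'))
      set φ : 𝓢(ℝ, ℂ) := (hfs.comp_left (g := Complex.ofRealCLM) rfl).toSchwartzMap
        (Complex.ofRealCLM.contDiff.comp hfd) with hφ
      have hφx : ∀ x, φ x = (f x : ℂ) := fun x => rfl
      have h1 := hb φ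
      have h2 : ∫ x, φ x ∂μ = ((∫ x, f x ∂μ : ℝ) : ℂ) := by
        simp_rw [hφx]
        exact integral_ofReal
      have hfi : Integrable (f : ℝ → ℝ) μ := hfd.continuous.integrable_of_hasCompactSupport hfs
      have h3 : μ.real K ≤ ∫ x, f x ∂μ := by
        have : μ.real K = ∫ x, K.indicator (fun _ => (1:ℝ)) x ∂μ := by
          rw [integral_indicator hK.measurableSet]; simp
        rw [this]
        refine integral_mono ((integrable_const _).indicator hK.measurableSet) hfi fun x => ?_
        by_cases hx : x ∈ K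
        · rw [Set.indicator_of_mem hx]
          exact (hf1 hx).ge
        · rw [Set.indicator_of_notMem hx]
          exact (hf x).1
      have h4 : ∫ x, ‖φ x‖ ^ 2 ≤ ε := by
        have hU' : volume U < ⊤ := hUε.trans ENNReal.ofReal_lt_top
        have h5 : ∫ x, ‖φ x‖ ^ 2 ≤ ∫ x, U.indicator (fun _ => (1:ℝ)) x := by
          refine integral_mono_of_nonneg (Eventually.of_forall fun x => by positivity) ?_ ?_
          · exact (integrable_indicator_iff hU.measurableSet).mpr
              (integrableOn_const hU'.ne)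
          · refine Eventually.of_forall fun x => ?_
            simp only [hφx, Complex.norm_real]
            by_cases hx : x ∈ U
            · rw [Set.indicator_of_mem hx]
              have := hf x
              rw [Real.norm_of_nonneg this.1]
              exact pow_le_one₀ this.1 this.2
            · rw [Set.indicator_of_notMem hx]
              have : f x = 0 := hf0 (fun hx' => hx (hVU (subset_closure hx')))
              rw [this]
              simp
        refine h5.trans ?_
        rw [integral_indicator hU.measurableSet]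
        simp only [integral_const, smul_eq_mul, mul_one, MeasurableSet.univ,
          measureReal_restrict_apply, univ_inter]
        exact ENNReal.toReal_le_of_le_ofReal hε.le hUε.le
      have h6 : 0 ≤ ∫ x, f x ∂μ := integral_nonneg fun x => (hf x).1
      calc μ.real K ≤ ∫ x, f x ∂μ := h3
        _ = ‖∫ x, φ x ∂μ‖ := by rw [h2, Complex.norm_real, Real.norm_of_nonneg h6]
        _ ≤ D * (∫ x, ‖φ x‖ ^ 2) ^ (1 / 2 : ℝ) := h1
        _ ≤ D * ε ^ (1 / 2 : ℝ) := by
            refine mul_le_mul_of_nonneg_left ?_ hD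
            refine Real.rpow_le_rpow ?_ h4 (by norm_num)
            exact integral_nonneg fun x => by positivity
    have hlim : Tendsto (fun ε : ℝ => D * ε ^ (1 / 2 : ℝ)) (𝓝[>] 0) (𝓝 (D * 0 ^ (1/2 : ℝ))) := by
      refine Tendsto.const_mul _ ?_
      refine ((Real.continuousAt_rpow_const 0 (1/2) (Or.inr (by norm_num))).tendsto).mono_left
        nhdsWithin_le_nhds
    have hle' : μ.real K ≤ D * 0 ^ (1 / 2 : ℝ) := by
      refine ge_of_tendsto hlim ?_
      filter_upwards [self_mem_nhdsWithin] with ε hε using hle ε hε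
    rw [Real.zero_rpow (by norm_num), mul_zero] at hle'
    have : μ.real K = 0 := le_antisymm hle' measureReal_nonneg
    rwa [measureReal_eq_zero_iff] at this
  refine Measure.AbsolutelyContinuous.mk fun s hs h0 => ?_
  rw [hs.measure_eq_iSup_isCompact]
  simp only [ENNReal.iSup_eq_zero]
  intro K hKs hK
  exact key K hK (measure_mono_null hKs h0)

end

end Pool.Agent.Lib.MP_2cc37a_an
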