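import Pool.Agent.Lib.MP_2cc37a_an.Moment

/-!
Asymptotic form of the moment bound.
-/

namespace Pool.Agent.Lib.MP_2cc37a_an

open MeasureTheory Set Filter Topology

theorem poly_bdd (c C₃ C₂ C₀ : ℝ) (hc : 0 < c) (h3 : 0 ≤ C₃) (h2 : 0 ≤ C₂) (h0 : 0 ≤ C₀) :
    ∃ M : ℝ, ∀ t : ℝ, 0 ≤ t → -c * t ^ 4 + C₃ * t ^ 3 + C₂ * t ^ 2 + C₀ ≤ M := by
  set T : ℝ := max 1 ((C₃ + C₂ + C₀) / c) with hT
  have hT1 : 1 ≤ T := le_max_left _ _
  have hT2 : (C₃ + C₂ + C₀) / c ≤ T := le_max_right _ _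
  refine ⟨C₃ * T ^ 3 + C₂ * T ^ 2 + C₀, fun t ht => ?_⟩
  rcases le_or_gt t T with h | h
  · have h1 : t ^ 3 ≤ T ^ 3 := pow_le_pow_left₀ ht h 3
    have h2' : t ^ 2 ≤ T ^ 2 := pow_le_pow_left₀ ht h 2
    have h4 : 0 ≤ c * t ^ 4 := by positivity
    nlinarith [mul_le_mul_of_nonneg_left h1 h3, mul_le_mul_of_nonneg_left h2' h2]
  · have ht1 : 1 ≤ t := hT1.trans h.le
    have hs : C₃ + C₂ + C₀ ≤ c * t := by
      rw [div_le_iff₀ hc] at hT2
      nlinarith
    have e2 : t ^ 2 ≤ t ^ 3 := pow_le_pow_right₀ ht1 (by norm_num)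
    have e0 : 1 ≤ t ^ 3 := one_le_pow₀ ht1
    have h5 : C₃ * t ^ 3 + C₂ * t ^ 2 + C₀ ≤ (C₃ + C₂ + C₀) * t ^ 3 := by
      nlinarith [mul_le_mul_of_nonneg_left e2 h2, mul_le_mul_of_nonneg_left e0 h0]
    have h6 : (C₃ + C₂ + C₀) * t ^ 3 ≤ c * t * t ^ 3 :=
      mul_le_mul_of_nonneg_right hs (by positivity)
    have h7 : c * t * t ^ 3 = c * t ^ 4 := by ring
    have h8 : 0 ≤ C₃ * T ^ 3 + C₂ * T ^ 2 + C₀ := by positivity
    linarith

variable {α : ℝ} {b : ℕ}

theorem rat_eq_exp (hb : 2 ≤ b) : rat α b = Real.exp (-(α * Real.log b)) := by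
  have : (0:ℝ) < b := by exact_mod_cast (by omega : 0 < b)
  unfold rat
  rw [Real.rpow_def_of_pos this]
  congr 1
  ring

theorem exists_K [NeZero b] (hb : 2 ≤ b) (hα : 0 < α) (p : ℕ) : ∃ K : ℕ, 0 < K ∧ ∀ q : ℕ, 0 < q →
    ((2 * p : ℕ) : ℝ) * (rat α b ^ (q * q + K * q) * (1 - rat α b)⁻¹) ≤
      1 / 2 * (rat α b ^ (q * q) * ((b : ℝ) ^ (2 * q))⁻¹) := by
  have hρ := rat_pos (α := α) hb
  have hρ1 := rat_lt_one hb hα
  have hb0 := bpos (b := b)
  have h1ρ : 0 < 1 - rat α b := by linarith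
  set κ : ℝ := (1 - rat α b) / (4 * p + 1) with hκ
  have hκ0 : 0 < κ := by positivity
  have hκ1 : κ ≤ 1 := by
    rw [hκ, div_le_one (by positivity)]
    have : (0:ℝ) ≤ 4 * p := by positivity
    linarith
  obtain ⟨K, hK⟩ := exists_pow_lt_of_lt_one (show (0:ℝ) < ((b : ℝ) ^ 2)⁻¹ * κ by positivity) hρ1
  refine ⟨K + 1, Nat.succ_pos _, fun q hq => ?_⟩
  have hK' : rat α b ^ (K + 1) ≤ ((b : ℝ) ^ 2)⁻¹ * κ := by
    refine le_trans ?_ hK.le
    exact pow_le_pow_of_le_one hρ.le hρ1.le (Nat.le_succ K)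
  have h1 : rat α b ^ ((K + 1) * q) ≤ ((b : ℝ) ^ (2 * q))⁻¹ * κ := by
    rw [pow_mul]
    calc (rat α b ^ (K + 1)) ^ q ≤ (((b : ℝ) ^ 2)⁻¹ * κ) ^ q :=
          pow_le_pow_left₀ (by positivity) hK' q
      _ = ((b : ℝ) ^ (2 * q))⁻¹ * κ ^ q := by rw [mul_pow, inv_pow, ← pow_mul]
      _ ≤ _ := by
          refine mul_le_mul_of_nonneg_left ?_ (by positivity)
          exact pow_le_of_le_one hκ0.le hκ1 hq.ne'
  rw [pow_add]
  have h2 : ((2 * p : ℕ) : ℝ) * (κ * (1 - rat α b)⁻¹) ≤ 1 / 2 := by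
    rw [hκ]
    push_cast
    have : (2 * (p:ℝ)) * ((1 - rat α b) / (4 * p + 1) * (1 - rat α b)⁻¹) = 2 * p / (4 * p + 1) := by
      field_simp
    rw [this, div_le_iff₀ (by positivity)]
    linarith
  calc ((2 * p : ℕ) : ℝ) * (rat α b ^ (q * q) * rat α b ^ ((K + 1) * q) * (1 - rat α b)⁻¹)
      ≤ ((2 * p : ℕ) : ℝ) * (rat α b ^ (q * q) * (((b : ℝ) ^ (2 * q))⁻¹ * κ) * (1 - rat α b)⁻¹) := by
        gcongr
    _ = (((2 * p : ℕ) : ℝ) * (κ * (1 - rat α b)⁻¹)) * (rat α b ^ (q * q) * ((b : ℝ) ^ (2 * q))⁻¹) := by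
        ring
    _ ≤ 1 / 2 * (rat α b ^ (q * q) * ((b : ℝ) ^ (2 * q))⁻¹) :=
        mul_le_mul_of_nonneg_right h2 (by positivity)

theorem exists_moment_bound [NeZero b] (hb : 2 ≤ b) (hα : 0 < α) (hα1 : α < 1) :
    ∃ p Λ : ℕ, ∃ C : ℝ, 1 ≤ p ∧ 0 < C ∧ ∀ (g₀ : LipS1) (η s : ℝ), 1 ≤ |η| →
      ∫ c, ‖Phi α b (g₀ + gc b Λ c) η s‖ ^ (2 * p) ∂(PP b Λ) ≤ C * (|η| ^ (p + 5))⁻¹ := by
  have hb0 := bpos (b := b)
  have hb1 : (1:ℝ) < b := by exact_mod_cast (by omega : 1 < b)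
  set L := Real.log b with hL
  have hL0 : 0 < L := Real.log_pos hb1
  set a : ℝ := (1 + α) / 2 with ha
  have ha1 : a < 1 := by rw [ha]; linarith
  have haα : α < a := by rw [ha]; linarith
  have ha0 : 0 < a := by linarith
  obtain ⟨p₀, hp₀⟩ := exists_nat_gt (5 * a / (1 - a))
  set p : ℕ := p₀ + 1 with hp
  have hp1 : 1 ≤ p := by omega
  have hpa : 0 < (p : ℝ) - (p + 5) * a := by
    have h1 : 5 * a / (1 - a) < p := hp₀.trans (by rw [hp]; push_cast; linarith)
    rw [div_lt_iff₀ (by linarith)] at h1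
    nlinarith
  obtain ⟨Λ, hΛ⟩ := exists_nat_gt ((p + 5) * a / (a - α))
  have hΛa : 0 < (Λ : ℝ) * (a - α) - (p + 5) * a := by
    rw [div_lt_iff₀ (by linarith)] at hΛ
    linarith
  obtain ⟨K, hK0, hK⟩ := exists_K hb hα p
  set D : ℝ := 2 * p * (1 + K) + b with hD
  have hD1 : 1 ≤ D := by
    rw [hD]
    have : (0:ℝ) ≤ 2 * p * (1 + K) := by positivity
    linarith
  have hlogD : 0 ≤ Real.log D := Real.log_nonneg hD1
  obtain ⟨M₁, hM₁⟩ := poly_bdd (((p : ℝ) - (p + 5) * a) * L) (8 * p)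
    (2 * p * Real.log D + 2 * (p + 5) * a * L) ((p + 5) * a * L) (by positivity) (by positivity)
    (by positivity) (by positivity)
  obtain ⟨M₂, hM₂⟩ := poly_bdd (((Λ : ℝ) * (a - α) - (p + 5) * a) * L) 0
    (4 * Λ * L + 2 * (p + 5) * a * L) ((p + 5) * a * L) (by positivity) le_rfl
    (by positivity) (by positivity)
  set C : ℝ := Real.exp ((p + 5) * (a * L)) + (Real.exp M₁ + 2 ^ Λ * Real.exp M₂) with hC
  refine ⟨p, Λ, C, hp1, by positivity, fun g₀ η s hη => ?_⟩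
  have hη0 : 0 < |η| := by linarith
  have hηne : η ≠ 0 := abs_pos.mp hη0
  rw [← div_eq_mul_inv, le_div_iff₀ (by positivity)]
  set X := ∫ c, ‖Phi α b (g₀ + gc b Λ c) η s‖ ^ (2 * p) ∂(PP b Λ) with hX
  have hX0 : 0 ≤ X := integral_nonneg fun c => by positivity
  have hX1 : X ≤ 1 := by
    have : X ≤ ∫ _ : Par b Λ, (1:ℝ) ∂(PP b Λ) := by
      refine integral_mono_of_nonneg (Eventually.of_forall fun c => by positivity)
        (integrable_const _) (Eventually.of_forall fun c => ?_)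
      exact pow_le_one₀ (norm_nonneg _) (norm_Phi_le_one _ _ _)
    simpa using this
  have hηexp : |η| = Real.exp (Real.log |η|) := (Real.exp_log hη0).symm
  rcases lt_or_ge (Real.log |η|) (a * L) with hsmall | hlarge
  · have h1 : |η| ^ (p + 5) ≤ Real.exp ((p + 5) * (a * L)) := by
      rw [hηexp, ← Real.exp_nat_mul]
      refine Real.exp_le_exp.mpr ?_
      push_cast
      exact mul_le_mul_of_nonneg_left hsmall.le (by positivity)
    calc X * |η| ^ (p + 5) ≤ 1 * Real.exp ((p + 5) * (a * L)) :=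
          mul_le_mul hX1 h1 (by positivity) zero_le_one
      _ ≤ C := by
          rw [hC, one_mul]
          have : 0 < Real.exp M₁ + 2 ^ Λ * Real.exp M₂ := by positivity
          linarith
  · have haL : 0 < a * L := by positivity
    set r : ℝ := Real.sqrt (Real.log |η| / (a * L)) with hr
    have hquot : 1 ≤ Real.log |η| / (a * L) := by rwa [le_div_iff₀ haL, one_mul]
    have hr1 : 1 ≤ r := by rw [hr]; exact Real.one_le_sqrt.mpr hquot
    set q : ℕ := ⌊r⌋₊ with hq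
    have hq1 : 1 ≤ q := by rw [hq]; exact Nat.le_floor (by exact_mod_cast hr1)
    have hqr : (q : ℝ) ≤ r := Nat.floor_le (by linarith)
    have hrq : r < q + 1 := Nat.lt_floor_add_one r
    have hr2 : r ^ 2 = Real.log |η| / (a * L) := Real.sq_sqrt (by linarith)
    have hlow : (q : ℝ) ^ 2 * (a * L) ≤ Real.log |η| := by
      have : (q : ℝ) ^ 2 ≤ Real.log |η| / (a * L) := by
        rw [← hr2]; exact pow_le_pow_left₀ (by positivity) hqr 2
      rwa [le_div_iff₀ haL] at this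
    have hupp : Real.log |η| ≤ ((q : ℝ) + 1) ^ 2 * (a * L) := by
      have : Real.log |η| / (a * L) ≤ ((q : ℝ) + 1) ^ 2 := by
        rw [← hr2]; exact pow_le_pow_left₀ (by linarith) hrq.le 2
      rwa [div_le_iff₀ haL] at this
    have hηN : |η| ^ (p + 5) ≤ Real.exp ((p + 5) * (((q : ℝ) + 1) ^ 2 * (a * L))) := by
      rw [hηexp, ← Real.exp_nat_mul]
      refine Real.exp_le_exp.mpr ?_
      push_cast
      exact mul_le_mul_of_nonneg_left hupp (by positivity)
    have hmom := moment_le (Λ := Λ) hb hα (p := p) (n := q * q + K * q) (q := q) g₀ η s hηne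
      (by omega) (by nlinarith) (hK q (by omega))
    set t : ℝ := Real.sqrt q with ht
    have ht0 : 0 ≤ t := Real.sqrt_nonneg _
    have ht2 : t ^ 2 = q := Real.sq_sqrt (by positivity)
    have ht4 : t ^ 4 = (q : ℝ) ^ 2 := by rw [← ht2]; ring
    have hq0 : (0:ℝ) < q := by exact_mod_cast hq1
    -- first term
    have hB1 : (2 * p * ((q * q + K * q : ℕ) : ℝ) + b : ℝ) ^ (2 * p * q) * ((b : ℝ) ^ (p * (q * q)))⁻¹ *
        |η| ^ (p + 5) ≤ Real.exp M₁ := by
      have h1 : (2 * p * ((q * q + K * q : ℕ) : ℝ) + b : ℝ) ≤ Real.exp (Real.log D + 4 * t) := by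
        have hq1' : (1:ℝ) ≤ q := by exact_mod_cast hq1
        have h2 : (2 * p * ((q * q + K * q : ℕ) : ℝ) + b : ℝ) ≤ D * (q : ℝ) ^ 2 := by
          rw [hD]
          push_cast
          have e1 : (q : ℝ) ≤ (q : ℝ) ^ 2 := by nlinarith
          have e2 : (1:ℝ) ≤ (q : ℝ) ^ 2 := by nlinarith
          have e3 : (2 * p * K : ℝ) * q ≤ (2 * p * K : ℝ) * (q : ℝ) ^ 2 :=
            mul_le_mul_of_nonneg_left e1 (by positivity)
          have e4 : (b : ℝ) * 1 ≤ b * (q : ℝ) ^ 2 := mul_le_mul_of_nonneg_left e2 hb0.le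
          nlinarith
        refine h2.trans ?_
        rw [Real.exp_add, Real.exp_log (by linarith)]
        refine mul_le_mul_of_nonneg_left ?_ (by linarith)
        have h3 : t ≤ Real.exp t := by have := Real.add_one_le_exp t; linarith
        calc (q : ℝ) ^ 2 = t ^ 4 := ht4.symm
          _ ≤ (Real.exp t) ^ 4 := pow_le_pow_left₀ ht0 h3 4
          _ = Real.exp (4 * t) := by rw [← Real.exp_nat_mul]; norm_num
      have h2 : (2 * p * ((q * q + K * q : ℕ) : ℝ) + b : ℝ) ^ (2 * p * q) ≤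
          Real.exp ((2 * p * q) * (Real.log D + 4 * t)) := by
        refine (pow_le_pow_left₀ (by positivity) h1 _).trans (le_of_eq ?_)
        rw [← Real.exp_nat_mul]
        push_cast
        rfl
      have h3 : ((b : ℝ) ^ (p * (q * q)))⁻¹ = Real.exp (-(p * (q * q) * L)) := by
        rw [Real.exp_neg]
        congr 1
        have : (b : ℝ) = Real.exp L := (Real.exp_log hb0).symm
        conv_lhs => rw [this]
        rw [← Real.exp_nat_mul]
        push_cast
        rfl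
      rw [h3]
      calc _ ≤ Real.exp ((2 * p * q) * (Real.log D + 4 * t)) * Real.exp (-(p * (q * q) * L)) *
            Real.exp ((p + 5) * (((q : ℝ) + 1) ^ 2 * (a * L))) := by
            gcongr
        _ = Real.exp ((2 * p * q) * (Real.log D + 4 * t) + -(p * (q * q) * L) +
            (p + 5) * (((q : ℝ) + 1) ^ 2 * (a * L))) := by
            rw [Real.exp_add, Real.exp_add]
        _ ≤ Real.exp M₁ := by
            refine Real.exp_le_exp.mpr (le_trans (le_of_eq ?_) (hM₁ t ht0))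
            rw [← ht2]
            ring
    -- second term
    have hB2 : ((|η| * (1 / 2 * (rat α b ^ (q * q) * ((b : ℝ) ^ (4 * q))⁻¹)))⁻¹) ^ Λ *
        |η| ^ (p + 5) ≤ 2 ^ Λ * Real.exp M₂ := by
      have h1 : 1 / 2 * Real.exp ((a - α) * L * (q : ℝ) ^ 2 - 4 * L * q) ≤
          |η| * (1 / 2 * (rat α b ^ (q * q) * ((b : ℝ) ^ (4 * q))⁻¹)) := by
        have h3 : ((b : ℝ) ^ (4 * q))⁻¹ = Real.exp (-(4 * q * L)) := by
          rw [Real.exp_neg]
          congr 1
          have : (b : ℝ) = Real.exp L := (Real.exp_log hb0).symm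
          conv_lhs => rw [this]
          rw [← Real.exp_nat_mul]
          push_cast
          rfl
        have h4 : rat α b ^ (q * q) = Real.exp (-(q * q * (α * L))) := by
          rw [rat_eq_exp hb, ← Real.exp_nat_mul]
          push_cast
          congr 1
          ring
        rw [h3, h4]
        have h5 : Real.exp ((q : ℝ) ^ 2 * (a * L)) ≤ |η| := by
          rw [hηexp]; exact Real.exp_le_exp.mpr hlow
        calc 1 / 2 * Real.exp ((a - α) * L * (q : ℝ) ^ 2 - 4 * L * q)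
            = Real.exp ((q : ℝ) ^ 2 * (a * L)) * (1 / 2 * (Real.exp (-(q * q * (α * L))) *
              Real.exp (-(4 * q * L)))) := by
              rw [← Real.exp_add, mul_left_comm, ← Real.exp_add]
              congr 2
              ring
          _ ≤ _ := mul_le_mul_of_nonneg_right h5 (by positivity)
      have h2 : ((|η| * (1 / 2 * (rat α b ^ (q * q) * ((b : ℝ) ^ (4 * q))⁻¹)))⁻¹) ^ Λ ≤
          2 ^ Λ * Real.exp (-(Λ * ((a - α) * L * (q : ℝ) ^ 2 - 4 * L * q))) := by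
        calc _ ≤ ((1 / 2 * Real.exp ((a - α) * L * (q : ℝ) ^ 2 - 4 * L * q))⁻¹) ^ Λ := by
              refine pow_le_pow_left₀ ?_ (inv_anti₀ (by positivity) h1) _
              have := rat_pos (α := α) hb
              positivity
          _ = _ := by
              rw [mul_inv, mul_pow, ← Real.exp_neg, ← Real.exp_nat_mul]
              norm_num
              ring
      calc _ ≤ 2 ^ Λ * Real.exp (-(Λ * ((a - α) * L * (q : ℝ) ^ 2 - 4 * L * q))) *
            Real.exp ((p + 5) * (((q : ℝ) + 1) ^ 2 * (a * L))) := by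
            gcongr
        _ = 2 ^ Λ * Real.exp (-(Λ * ((a - α) * L * (q : ℝ) ^ 2 - 4 * L * q)) +
            (p + 5) * (((q : ℝ) + 1) ^ 2 * (a * L))) := by
            rw [Real.exp_add]; ring
        _ ≤ 2 ^ Λ * Real.exp M₂ := by
            refine mul_le_mul_of_nonneg_left ?_ (by positivity)
            refine Real.exp_le_exp.mpr (le_trans (le_of_eq ?_) (hM₂ t ht0))
            rw [← ht2]
            ring
    calc X * |η| ^ (p + 5) ≤ ((2 * p * ((q * q + K * q : ℕ) : ℝ) + b : ℝ) ^ (2 * p * q) *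
          ((b : ℝ) ^ (p * (q * q)))⁻¹ +
          ((|η| * (1 / 2 * (rat α b ^ (q * q) * ((b : ℝ) ^ (4 * q))⁻¹)))⁻¹) ^ Λ) * |η| ^ (p + 5) :=
          mul_le_mul_of_nonneg_right hmom (by positivity)
      _ ≤ Real.exp M₁ + 2 ^ Λ * Real.exp M₂ := by rw [add_mul]; exact add_le_add hB1 hB2
      _ ≤ C := by
          rw [hC]
          have : 0 < Real.exp ((p + 5) * (a * L)) := Real.exp_pos _
          linarith

end Pool.Agent.Lib.MP_2cc37a_an
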