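import Pool.Agent.Lib.MP_2cc37a_an.Count

/-!
Counting configurations of digits in which every aligned word has a twin or is followed by a
constant block.
-/

namespace Pool.Agent.Lib.MP_2cc37a_an

open Finset

section

variable (m n q L b : ℕ)

/-- Every aligned word of length `q` (the `l`-th one, `l < L`) in every string has another
occurrence starting before `n`, or is followed by a constant word of length `q`. -/
def BadD (D : Fin m → ℕ → Fin b) : Prop :=
  ∀ j : Fin m, ∀ l < L, (∃ (j' : Fin m) (k' : ℕ), k' < n ∧ (j', k') ≠ (j, l * q) ∧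
    ∀ i < q, D j' (k' + i) = D j (l * q + i)) ∨ (∃ δ, ∀ i < q, D j ((l + 1) * q + i) = δ)

/-- Certificates. -/
abbrev Cert := Fin m × Fin L → (Fin m × Fin n) ⊕ Fin b

/-- A certificate is valid if no word points to itself. -/
def ValidC (c : Cert m n L b) : Prop :=
  ∀ (j : Fin m) (l : Fin L) (p : Fin m × Fin n), c (j, l) = Sum.inl p →
    (p.1, (p.2 : ℕ)) ≠ (j, (l : ℕ) * q)

/-- `D` satisfies the certificate `c`. -/
def SatC (c : Cert m n L b) (D : Fin m → ℕ → Fin b) : Prop :=
  ∀ (j : Fin m) (l : Fin L),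
    (∀ p : Fin m × Fin n, c (j, l) = Sum.inl p →
      ∀ i < q, D p.1 (p.2 + i) = D j (l * q + i)) ∧
    (∀ δ : Fin b, c (j, l) = Sum.inr δ → ∀ i < q, D j ((l + 1) * q + i) = δ)

variable {m n q L b}

theorem exists_cert {D : Fin m → ℕ → Fin b} (h : BadD m n q L b D) :
    ∃ c : Cert m n L b, ValidC m n q L b c ∧ SatC m n q L b c D := by
  classical
  have h1 : ∀ x : Fin m × Fin L, ∃ y : (Fin m × Fin n) ⊕ Fin b,
      (∀ p, y = Sum.inl p → (p.1, (p.2 : ℕ)) ≠ (x.1, (x.2 : ℕ) * q) ∧
        ∀ i < q, D p.1 (p.2 + i) = D x.1 (x.2 * q + i)) ∧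
      (∀ δ, y = Sum.inr δ → ∀ i < q, D x.1 ((x.2 + 1) * q + i) = δ) := by
    rintro ⟨j, l⟩
    rcases h j l l.2 with ⟨j', k', hk', hne, heq⟩ | ⟨δ, hδ⟩
    · refine ⟨Sum.inl (j', ⟨k', hk'⟩), ?_, ?_⟩
      · rintro p hp
        obtain rfl := Sum.inl_injective hp
        exact ⟨hne, heq⟩
      · rintro δ hδ
        cases hδ
    · refine ⟨Sum.inr δ, ?_, ?_⟩
      · rintro p hp
        cases hp
      · rintro δ' hδ'
        obtain rfl := Sum.inr_injective hδ'
        exact hδ
  choose c hc using h1
  refine ⟨c, fun j l p hp => ((hc (j, l)).1 p hp).1, fun j l => ⟨fun p hp => ((hc (j, l)).1 p hp).2,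
    fun δ hδ => (hc (j, l)).2 δ hδ⟩⟩

/-- The entry of the certificate for the block of the position. -/
def lk (c : Cert m n L b) (q N : ℕ) (v : Fin m × Fin N) : Option ((Fin m × Fin n) ⊕ Fin b) :=
  if h : (v.2 : ℕ) / q < L then some (c (v.1, ⟨(v.2 : ℕ) / q, h⟩)) else none

/-- The entry of the certificate for the previous block of the position. -/
def lk' (c : Cert m n L b) (q N : ℕ) (v : Fin m × Fin N) : Option ((Fin m × Fin n) ⊕ Fin b) :=
  if h : q ≤ (v.2 : ℕ) ∧ (v.2 : ℕ) / q - 1 < L then some (c (v.1, ⟨(v.2 : ℕ) / q - 1, h.2⟩))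
  else none

open Classical in
theorem card_satC_sq_le [NeZero b] (hq : 0 < q) (hL : L * q ≤ n) (c : Cert m n L b)
    (hc : ValidC m n q L b c) (N : ℕ) (hN : N = n + q) (S : Finset (Fin m × Fin N → Fin b))
    (hS : ∀ d ∈ S, ∃ D : Fin m → ℕ → Fin b, SatC m n q L b c D ∧
      ∀ v : Fin m × Fin N, d v = D v.1 v.2) :
    S.card ^ 2 ≤ b ^ (2 * (m * N) - m * (L * q)) := by
  let U : Finset (Fin m × Fin N) := univ.filter fun v => ∃ p, lk c q N v = some (Sum.inl p)
  let P : Finset (Fin m × Fin N) := univ.filter fun v => ∃ δ, lk c q N v = some (Sum.inr δ)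
  let T : Finset (Fin m × Fin N) := univ.filter fun v => lk c q N v = none
  let Z : Finset (Fin m × Fin N) := univ.filter fun v => ∃ δ, lk' c q N v = some (Sum.inr δ)
  let π : Fin m × Fin N → Fin m × Fin N := fun v =>
    if h : ∃ p, lk c q N v = some (Sum.inl p) then
      (h.choose.1, ⟨h.choose.2 + (v.2 : ℕ) % q, by
        have := h.choose.2.2
        have := Nat.mod_lt (v.2 : ℕ) hq
        omega⟩) else v
  let κ : Fin m × Fin N → Fin b := fun v =>
    if h : ∃ δ, lk' c q N v = some (Sum.inr δ) then h.choose else 0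
  have hπ : ∀ v ∈ U, π v ≠ v := by
    intro v hv heq
    have hv' : ∃ p, lk c q N v = some (Sum.inl p) := by simpa [U] using hv
    have h1 : π v = (hv'.choose.1, ⟨hv'.choose.2 + (v.2 : ℕ) % q, by
        have := hv'.choose.2.2
        have := Nat.mod_lt (v.2 : ℕ) hq
        omega⟩) := dif_pos hv'
    have h2 := hv'.choose_spec
    set p := hv'.choose with hp
    rw [h1] at heq
    unfold lk at h2
    split_ifs at h2 with h3
    have h4 := hc v.1 ⟨(v.2 : ℕ) / q, h3⟩ p (Option.some_injective _ h2)
    apply h4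
    have h5 : p.1 = v.1 := congrArg Prod.fst heq
    have h6 : (p.2 : ℕ) + (v.2 : ℕ) % q = v.2 :=
      congrArg (fun w : Fin m × Fin N => (w.2 : ℕ)) heq
    have h7 := Nat.div_add_mod (v.2 : ℕ) q
    refine Prod.ext h5 ?_
    have h8 : (v.2 : ℕ) / q * q = q * ((v.2 : ℕ) / q) := mul_comm _ _
    change (p.2 : ℕ) = (v.2 : ℕ) / q * q
    omega
  have hcompat : ∀ d ∈ S, Compat U Z π κ d := by
    intro d hd
    obtain ⟨D, hD, hdD⟩ := hS d hd
    constructor
    · intro v hv
      have hv' : ∃ p, lk c q N v = some (Sum.inl p) := by simpa [U] using hv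
      have h1 : π v = (hv'.choose.1, ⟨hv'.choose.2 + (v.2 : ℕ) % q, by
          have := hv'.choose.2.2
          have := Nat.mod_lt (v.2 : ℕ) hq
          omega⟩) := dif_pos hv'
      have h2 := hv'.choose_spec
      set p := hv'.choose with hp
      unfold lk at h2
      split_ifs at h2 with h3
      have h4 := (hD v.1 ⟨(v.2 : ℕ) / q, h3⟩).1 p (Option.some_injective _ h2)
        ((v.2 : ℕ) % q) (Nat.mod_lt _ hq)
      rw [hdD v, h1, hdD]
      simp only
      rw [h4]
      simp only
      congr 1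
      rw [mul_comm]
      exact (Nat.div_add_mod _ _).symm
    · intro v hv
      have hv' : ∃ δ, lk' c q N v = some (Sum.inr δ) := by simpa [Z] using hv
      have h1 : κ v = hv'.choose := dif_pos hv'
      have h2 := hv'.choose_spec
      set δ := hv'.choose with hδ
      unfold lk' at h2
      split_ifs at h2 with h3
      have h4 := (hD v.1 ⟨(v.2 : ℕ) / q - 1, h3.2⟩).2 δ (Option.some_injective _ h2)
        ((v.2 : ℕ) % q) (Nat.mod_lt _ hq)
      rw [hdD v, h1, ← h4]
      congr 1
      simp only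
      have h5 : 1 ≤ (v.2 : ℕ) / q := by
        rw [Nat.one_le_div_iff hq]
        exact h3.1
      have h6 : (v.2 : ℕ) / q - 1 + 1 = (v.2 : ℕ) / q := by omega
      rw [h6, mul_comm]
      exact (Nat.div_add_mod _ _).symm
  have hmain := card_compat_sq_le U Z π κ hπ S hcompat
  rw [Fintype.card_fin] at hmain
  refine hmain.trans (Nat.pow_le_pow_right (Nat.pos_of_ne_zero (NeZero.ne b)) ?_)
  -- weights
  have hw : ∀ v : Fin m × Fin N, wt U Z v + (if v ∈ Z then 1 else 0) ≤
      1 + (if v ∈ P then 1 else 0) + (if v ∈ T then 1 else 0) := by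
    intro v
    unfold wt
    by_cases hZ : v ∈ Z
    · simp only [hZ, if_true]
      omega
    · simp only [hZ, if_false]
      by_cases hU : v ∈ U
      · simp only [hU, if_true]
        omega
      · simp only [hU, if_false]
        have hPT : v ∈ P ∨ v ∈ T := by
          have h1 : ¬ ∃ p, lk c q N v = some (Sum.inl p) := by simpa [U] using hU
          rcases h : lk c q N v with _ | ⟨p | δ⟩
          · right; simp [T, h]
          · exact absurd ⟨p, h⟩ h1
          · left; simp [P, h]
        rcases hPT with h | h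
        · simp only [h, if_true]; omega
        · simp only [h, if_true]; omega
  have hsum := Finset.sum_le_sum (s := (univ : Finset (Fin m × Fin N))) (fun v _ => hw v)
  simp only [Finset.sum_add_distrib, Finset.sum_ite_mem, univ_inter, Finset.sum_const,
    smul_eq_mul, mul_one] at hsum
  have hPZ : P.card ≤ Z.card := by
    have hlt : ∀ v ∈ P, (v.2 : ℕ) + q < N := by
      intro v hv
      have hv' : ∃ δ, lk c q N v = some (Sum.inr δ) := by simpa [P] using hv
      obtain ⟨δ, hδ⟩ := hv'
      unfold lk at hδ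
      split_ifs at hδ with h3
      have h4 := Nat.div_add_mod (v.2 : ℕ) q
      have h5 := Nat.mod_lt (v.2 : ℕ) hq
      have h6 : q * ((v.2 : ℕ) / q) + q ≤ q * L := by
        have : q * ((v.2 : ℕ) / q + 1) ≤ q * L := Nat.mul_le_mul_left q h3
        rwa [mul_add, mul_one] at this
      have h7 : q * L = L * q := mul_comm _ _
      omega
    refine Finset.card_le_card_of_injOn
      (fun v => if h : (v.2 : ℕ) + q < N then (v.1, ⟨(v.2 : ℕ) + q, h⟩) else v) ?_ ?_
    · intro v hv
      have hv2 := hlt v hv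
      simp only [hv2, dif_pos]
      have hv' : ∃ δ, lk c q N v = some (Sum.inr δ) := by simpa [P] using hv
      obtain ⟨δ, hδ⟩ := hv'
      unfold lk at hδ
      split_ifs at hδ with h3
      have hdiv : ((v.2 : ℕ) + q) / q = (v.2 : ℕ) / q + 1 := Nat.add_div_right _ hq
      simp only [Z, coe_filter, mem_univ, true_and, Set.mem_ofPred_eq]
      refine ⟨δ, ?_⟩
      unfold lk'
      have h8 : q ≤ (v.2 : ℕ) + q ∧ ((v.2 : ℕ) + q) / q - 1 < L := by
        rw [hdiv]
        refine ⟨by omega, ?_⟩
        rw [Nat.add_sub_cancel]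
        exact h3
      rw [dif_pos h8, ← hδ]
      congr 3
      apply Fin.ext
      change ((v.2 : ℕ) + q) / q - 1 = (v.2 : ℕ) / q
      rw [hdiv, Nat.add_sub_cancel]
    · intro v hv w hw h
      simp only [hlt v hv, hlt w hw, dif_pos] at h
      have h5 := congrArg Prod.fst h
      have h6 := congrArg (fun w : Fin m × Fin N => (w.2 : ℕ)) h
      simp only at h5 h6
      refine Prod.ext h5 (Fin.ext ?_)
      omega
  have hT : T.card ≤ m * (N - L * q) := by
    have h1 : T ⊆ (univ : Finset (Fin m)) ×ˢ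
        ((univ : Finset (Fin N)).filter fun t : Fin N => L * q ≤ (t : ℕ)) := by
      intro v hv
      have hv' : lk c q N v = none := by simpa [T] using hv
      unfold lk at hv'
      split_ifs at hv' with h3
      simp only [mem_product, mem_univ, true_and, mem_filter]
      rw [not_lt, Nat.le_div_iff_mul_le hq] at h3
      exact h3
    refine (Finset.card_le_card h1).trans ?_
    rw [Finset.card_product, Finset.card_univ, Fintype.card_fin]
    refine Nat.mul_le_mul_left m ?_
    have h2 : (univ : Finset (Fin N)).filter (fun t : Fin N => L * q ≤ (t : ℕ)) =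
        (univ : Finset (Fin N)) \ (univ : Finset (Fin N)).filter (fun t : Fin N => (t : ℕ) < L * q) := by
      ext t
      simp
    rw [h2, Finset.card_sdiff_of_subset (Finset.filter_subset _ _), Finset.card_univ,
      Fintype.card_fin]
    have h3 : ((univ : Finset (Fin N)).filter (fun t : Fin N => (t : ℕ) < L * q)).card = L * q := by
      rw [Fin.card_filter_val_lt]
      omega
    rw [h3]
  have hV : (univ : Finset (Fin m × Fin N)).card = m * N := by
    rw [Finset.card_univ, Fintype.card_prod, Fintype.card_fin, Fintype.card_fin]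
  rw [hV] at hsum
  have h9 : m * (N - L * q) = m * N - m * (L * q) := Nat.mul_sub _ _ _
  have h10 : m * (L * q) ≤ m * N := Nat.mul_le_mul_left m (by omega)
  omega

open Classical in
/-- The number of restrictions to the first `n + q` digits of bad configurations. -/
theorem card_bad_sq_le [NeZero b] (hq : 0 < q) (hL : L * q ≤ n)
    (S : Finset (Fin m × Fin (n + q) → Fin b))
    (hS : ∀ d ∈ S, ∃ D : Fin m → ℕ → Fin b, BadD m n q L b D ∧
      ∀ v : Fin m × Fin (n + q), d v = D v.1 v.2) :
    S.card ^ 2 ≤ (m * n + b) ^ (2 * (m * L)) * b ^ (2 * (m * (n + q)) - m * (L * q)) := by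
  let Sc : Cert m n L b → Finset (Fin m × Fin (n + q) → Fin b) := fun c =>
    S.filter fun d => ValidC m n q L b c ∧ ∃ D : Fin m → ℕ → Fin b, SatC m n q L b c D ∧
      ∀ v : Fin m × Fin (n + q), d v = D v.1 v.2
  set M := b ^ (2 * (m * (n + q)) - m * (L * q)) with hM
  have h1 : ∀ c, (Sc c).card ^ 2 ≤ M := by
    intro c
    by_cases hc : ValidC m n q L b c
    · refine card_satC_sq_le hq hL c hc (n + q) rfl (Sc c) fun d hd => ?_
      simp only [Sc, mem_filter] at hd
      exact hd.2.2
    · have : Sc c = ∅ := by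
        simp only [Sc, hc, false_and, Finset.filter_false]
      rw [this]
      simp
  have h1' : ∀ c, (Sc c).card ≤ Nat.sqrt M := fun c => by
    rw [Nat.le_sqrt, ← sq]; exact h1 c
  have h2 : S ⊆ (univ : Finset (Cert m n L b)).biUnion Sc := by
    intro d hd
    obtain ⟨D, hD, hdD⟩ := hS d hd
    obtain ⟨c, hc, hs⟩ := exists_cert hD
    simp only [mem_biUnion, mem_univ, true_and, Sc, mem_filter]
    exact ⟨c, hd, hc, D, hs, hdD⟩
  have h3 : S.card ≤ (m * n + b) ^ (m * L) * Nat.sqrt M := by
    refine (Finset.card_le_card h2).trans (Finset.card_biUnion_le.trans ?_)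
    refine (Finset.sum_le_card_nsmul _ _ _ fun c _ => h1' c).trans (le_of_eq ?_)
    rw [Finset.card_univ, smul_eq_mul, Fintype.card_fun, Fintype.card_sum, Fintype.card_prod,
      Fintype.card_fin, Fintype.card_prod, Fintype.card_fin, Fintype.card_fin, Fintype.card_fin,
      Fintype.card_fin]
  calc S.card ^ 2 ≤ ((m * n + b) ^ (m * L) * Nat.sqrt M) ^ 2 := Nat.pow_le_pow_left h3 2
    _ = (m * n + b) ^ (2 * (m * L)) * (Nat.sqrt M) ^ 2 := by
        rw [mul_pow, ← pow_mul, mul_comm (m * L) 2]
    _ ≤ _ := Nat.mul_le_mul_left _ (Nat.sqrt_le' M)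

end

end Pool.Agent.Lib.MP_2cc37a_an
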