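import Mathlib

/-!
Counting functions on a finite set subject to equalities `d i = d (π i)` (`i ∈ U`) and prescribed
values on `Z`.
-/

namespace Pool.Agent.Lib.MP_2cc37a_an

open Finset

section

variable {V A : Type*} [Fintype V] [DecidableEq V] [Fintype A] [DecidableEq A]

/-- The weight of a position: `0` if its value is prescribed, `1` if it is paired, `2` otherwise. -/
def wt (U Z : Finset V) (v : V) : ℕ := if v ∈ Z then 0 else if v ∈ U then 1 else 2

/-- Functions compatible with the constraints. -/
def Compat (U Z : Finset V) (π : V → V) (κ : V → A) (d : V → A) : Prop :=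
  (∀ v ∈ U, d v = d (π v)) ∧ ∀ v ∈ Z, d v = κ v

theorem card_compat_sq_le [Nonempty A] (U Z : Finset V) (π : V → V) (κ : V → A)
    (hπ : ∀ v ∈ U, π v ≠ v) (S : Finset (V → A)) (hS : ∀ d ∈ S, Compat U Z π κ d) :
    S.card ^ 2 ≤ Fintype.card A ^ ∑ v, wt U Z v := by
  classical
  let r : Setoid V := Relation.EqvGen.setoid (fun v w => v ∈ U ∧ w = π v)
  have hr : ∀ v ∈ U, (Quotient.mk r v) = Quotient.mk r (π v) := fun v hv =>
    Quotient.sound (Relation.EqvGen.rel _ _ ⟨hv, rfl⟩)
  have hd : ∀ d ∈ S, ∀ v w, r v w → d v = d w := by
    intro d hd v w h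
    induction h with
    | rel x y h => rw [h.2]; exact (hS d hd).1 x h.1
    | refl x => rfl
    | symm x y _ ih => exact ih.symm
    | trans x y z _ _ ih1 ih2 => exact ih1.trans ih2
  let F : Finset (Quotient r) := Finset.univ.filter fun C => ∀ v ∈ Z, Quotient.mk r v ≠ C
  have hinj : S.card ≤ Fintype.card (F → A) := by
    refine (Finset.card_le_card_of_injOn (t := (Finset.univ : Finset (F → A)))
      (fun d => fun C : F => d (Quotient.out (C : Quotient r))) (fun _ _ => mem_univ _) ?_).trans
      (le_of_eq rfl)
    intro d hd1 d' hd2 h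
    funext v
    by_cases hv : Quotient.mk r v ∈ F
    · have h1 := congrFun h ⟨_, hv⟩
      simp only at h1
      have h2 : r (Quotient.out (Quotient.mk r v)) v := Quotient.exact (Quotient.out_eq _)
      rw [← hd d hd1 _ _ h2, ← hd d' hd2 _ _ h2]
      exact h1
    · simp only [F, mem_filter, mem_univ, true_and, not_forall, not_not] at hv
      obtain ⟨z, hz, hzv⟩ := hv
      have h2 : r z v := Quotient.exact hzv
      rw [← hd d hd1 _ _ h2, ← hd d' hd2 _ _ h2, (hS d hd1).2 z hz, (hS d' hd2).2 z hz]
  have hcard : 2 * F.card ≤ ∑ v, wt U Z v := by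
    have h1 : ∑ v, wt U Z v = ∑ C : Quotient r, ∑ v ∈ Finset.univ.filter (fun v => Quotient.mk r v = C),
        wt U Z v := (Finset.sum_fiberwise _ _ _).symm
    rw [h1]
    calc 2 * F.card = ∑ C ∈ F, 2 := by simp [mul_comm]
      _ ≤ ∑ C ∈ F, ∑ v ∈ Finset.univ.filter (fun v => Quotient.mk r v = C), wt U Z v := by
          refine Finset.sum_le_sum fun C hC => ?_
          have hC' : ∀ z ∈ Z, Quotient.mk r z ≠ C := by
            simpa [F] using hC
          obtain ⟨v, rfl⟩ := Quotient.exists_rep C
          have hvZ : v ∉ Z := fun h => hC' v h rfl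
          by_cases hvU : v ∈ U
          · have hne := hπ v hvU
            have hpv : π v ∉ Z := fun h => hC' _ h (hr v hvU).symm
            have hw1 : 1 ≤ wt U Z v := by
              unfold wt; rw [if_neg hvZ]; split_ifs <;> norm_num
            have hw2 : 1 ≤ wt U Z (π v) := by
              unfold wt; rw [if_neg hpv]; split_ifs <;> norm_num
            calc 2 ≤ wt U Z v + wt U Z (π v) := by omega
              _ = ∑ u ∈ ({v, π v} : Finset V), wt U Z u := by
                  rw [Finset.sum_pair hne.symm]
              _ ≤ _ := by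
                  refine Finset.sum_le_sum_of_subset ?_
                  intro u hu
                  simp only [mem_insert, mem_singleton] at hu
                  simp only [mem_filter, mem_univ, true_and]
                  rcases hu with rfl | rfl
                  · rfl
                  · exact (hr v hvU).symm
          · have hw : wt U Z v = 2 := by unfold wt; rw [if_neg hvZ, if_neg hvU]
            rw [← hw]
            exact Finset.single_le_sum (f := fun u => wt U Z u) (fun _ _ => Nat.zero_le _)
              (by simp)
      _ ≤ _ := Finset.sum_le_sum_of_subset (Finset.subset_univ F)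
  have hA : 1 ≤ Fintype.card A := Fintype.card_pos
  calc S.card ^ 2 ≤ (Fintype.card (F → A)) ^ 2 := Nat.pow_le_pow_left hinj 2
    _ = Fintype.card A ^ (2 * F.card) := by
        rw [Fintype.card_fun, Fintype.card_coe, ← pow_mul, mul_comm]
    _ ≤ _ := Nat.pow_le_pow_right hA hcard

end

end Pool.Agent.Lib.MP_2cc37a_an
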