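import Mathlib

/-!
The Banach space of Lipschitz functions on the circle, Weierstrass functions, oblique occupation
measures, shy and prevalent sets.
-/

namespace Pool.Agent.Lib.MP_2cc37a_an

open MeasureTheory Set

/-- Real Lipschitz functions on the circle `ℝ/ℤ`. -/
@[ext] structure LipS1 where
  /-- the function -/
  toFun : UnitAddCircle → ℝ
  lip' : ∃ K : NNReal, LipschitzWith K toFun

namespace LipS1

instance : FunLike LipS1 UnitAddCircle ℝ where
  coe := toFun
  coe_injective f g h := by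
    cases f; cases g; congr

theorem lip (g : LipS1) : ∃ K : NNReal, LipschitzWith K g := g.lip'

@[simp] theorem coe_mk (f : UnitAddCircle → ℝ) (h : ∃ K : NNReal, LipschitzWith K f) :
    ⇑(LipS1.mk f h) = f := rfl

instance : Zero LipS1 := ⟨⟨fun _ => 0, 0, LipschitzWith.const 0⟩⟩

instance : Add LipS1 := ⟨fun f g => ⟨fun x => f x + g x, by
  obtain ⟨K, hK⟩ := f.lip
  obtain ⟨L, hL⟩ := g.lip
  exact ⟨K + L, hK.add hL⟩⟩⟩

instance : Neg LipS1 := ⟨fun f => ⟨fun x => - f x, by
  obtain ⟨K, hK⟩ := f.lip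
  exact ⟨K, hK.neg⟩⟩⟩

instance : Sub LipS1 := ⟨fun f g => ⟨fun x => f x - g x, by
  obtain ⟨K, hK⟩ := f.lip
  obtain ⟨L, hL⟩ := g.lip
  exact ⟨K + L, hK.sub hL⟩⟩⟩

instance : SMul ℝ LipS1 := ⟨fun c f => ⟨fun x => c * f x, by
  obtain ⟨K, hK⟩ := f.lip
  refine ⟨‖c‖₊ * K, LipschitzWith.of_dist_le_mul fun x y => ?_⟩
  rw [Real.dist_eq, ← mul_sub, abs_mul, NNReal.coe_mul, coe_nnnorm, Real.norm_eq_abs, mul_assoc]
  exact mul_le_mul_of_nonneg_left (by simpa [Real.dist_eq] using hK.dist_le_mul x y)
    (abs_nonneg c)⟩⟩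

instance : SMul ℕ LipS1 := ⟨fun n f => ⟨fun x => n • f x, by
  obtain ⟨K, hK⟩ := ((n : ℝ) • f).lip
  refine ⟨K, ?_⟩
  have : (fun x => n • f x) = ((n : ℝ) • f : LipS1) := by
    funext x
    change n • f x = (n : ℝ) * f x
    rw [nsmul_eq_mul]
  rw [this]
  exact hK⟩⟩

instance : SMul ℤ LipS1 := ⟨fun n f => ⟨fun x => n • f x, by
  obtain ⟨K, hK⟩ := ((n : ℝ) • f).lip
  refine ⟨K, ?_⟩
  have : (fun x => n • f x) = ((n : ℝ) • f : LipS1) := by
    funext x
    change n • f x = (n : ℝ) * f x
    rw [zsmul_eq_mul]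
  rw [this]
  exact hK⟩⟩

@[simp] theorem coe_zero : ⇑(0 : LipS1) = 0 := rfl
@[simp] theorem coe_add (f g : LipS1) : ⇑(f + g) = f + g := rfl
@[simp] theorem coe_neg (f : LipS1) : ⇑(-f) = -f := rfl
@[simp] theorem coe_sub (f g : LipS1) : ⇑(f - g) = f - g := rfl
@[simp] theorem coe_smul (c : ℝ) (f : LipS1) : ⇑(c • f) = c • f := rfl

instance : AddCommGroup LipS1 :=
  Function.Injective.addCommGroup (fun f : LipS1 => (f : UnitAddCircle → ℝ))
    DFunLike.coe_injective rfl (fun _ _ => rfl) (fun _ => rfl) (fun _ _ => rfl)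
    (fun _ _ => rfl) (fun _ _ => rfl)

/-- The coercion to functions as an additive homomorphism. -/
def coeHom : LipS1 →+ (UnitAddCircle → ℝ) where
  toFun f := f
  map_zero' := rfl
  map_add' _ _ := rfl

instance : Module ℝ LipS1 :=
  Function.Injective.module ℝ coeHom DFunLike.coe_injective (fun _ _ => rfl)

/-- The supremum norm `sup |g|`. -/
noncomputable def supNorm (g : LipS1) : ℝ := ⨆ x : UnitAddCircle, |g x|

/-- The Lipschitz constant `sup |g(x) - g(y)| / |x - y|` (the pairs with `x = y` contribute `0`). -/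
noncomputable def lipConst (g : LipS1) : ℝ :=
  ⨆ p : UnitAddCircle × UnitAddCircle, |g p.1 - g p.2| / dist p.1 p.2

theorem bdd_sup (g : LipS1) : BddAbove (range fun x : UnitAddCircle => |g x|) := by
  obtain ⟨K, hK⟩ := g.lip
  have hc : Continuous fun x : UnitAddCircle => |g x| := hK.continuous.abs
  exact (isCompact_range hc).bddAbove

theorem bdd_lip (g : LipS1) :
    BddAbove (range fun p : UnitAddCircle × UnitAddCircle => |g p.1 - g p.2| / dist p.1 p.2) := by
  obtain ⟨K, hK⟩ := g.lip
  refine ⟨K, ?_⟩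
  rintro _ ⟨p, rfl⟩
  have := hK.dist_le_mul p.1 p.2
  rw [Real.dist_eq] at this
  exact div_le_of_le_mul₀ dist_nonneg K.2 this

theorem abs_le_supNorm (g : LipS1) (x : UnitAddCircle) : |g x| ≤ supNorm g :=
  le_ciSup g.bdd_sup x

theorem supNorm_nonneg (g : LipS1) : 0 ≤ supNorm g := (abs_nonneg _).trans (abs_le_supNorm g 0)

theorem div_le_lipConst (g : LipS1) (x y : UnitAddCircle) :
    |g x - g y| / dist x y ≤ lipConst g :=
  le_ciSup g.bdd_lip (x, y)

theorem lipConst_nonneg (g : LipS1) : 0 ≤ lipConst g := by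
  refine le_trans ?_ (div_le_lipConst g 0 0)
  simp

/-- The norm `sup |g| + sup |g(x) - g(y)| / |x - y|`. -/
noncomputable def norm' : AddGroupNorm LipS1 where
  toFun g := supNorm g + lipConst g
  map_zero' := by
    simp [supNorm, lipConst]
  add_le' f g := by
    have h1 : supNorm (f + g) ≤ supNorm f + supNorm g := by
      refine ciSup_le fun x => ?_
      rw [coe_add, Pi.add_apply]
      exact (abs_add_le _ _).trans (add_le_add (abs_le_supNorm f x) (abs_le_supNorm g x))
    have h2 : lipConst (f + g) ≤ lipConst f + lipConst g := by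
      refine ciSup_le fun p => ?_
      rw [coe_add, Pi.add_apply, Pi.add_apply]
      refine le_trans ?_ (add_le_add (div_le_lipConst f p.1 p.2) (div_le_lipConst g p.1 p.2))
      rw [← add_div]
      refine div_le_div_of_nonneg_right ?_ dist_nonneg
      have : f p.1 + g p.1 - (f p.2 + g p.2) = (f p.1 - f p.2) + (g p.1 - g p.2) := by ring
      rw [this]
      exact abs_add_le _ _
    linarith
  neg' f := by
    have h1 : supNorm (-f) = supNorm f := by
      unfold supNorm
      congr 1
      funext x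
      rw [coe_neg, Pi.neg_apply, abs_neg]
    have h2 : lipConst (-f) = lipConst f := by
      unfold lipConst
      congr 1
      funext p
      rw [coe_neg, Pi.neg_apply, Pi.neg_apply]
      congr 1
      rw [← abs_neg]
      congr 1
      ring
    rw [h1, h2]
  eq_zero_of_map_eq_zero' f h := by
    have h1 : supNorm f = 0 := by
      have := supNorm_nonneg f
      have := lipConst_nonneg f
      linarith
    apply DFunLike.ext
    intro x
    have := abs_le_supNorm f x
    rw [h1] at this
    exact abs_nonpos_iff.mp this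

noncomputable instance : NormedAddCommGroup LipS1 := norm'.toNormedAddCommGroup

theorem norm_def (g : LipS1) : ‖g‖ = supNorm g + lipConst g := rfl

theorem abs_le_norm (g : LipS1) (x : UnitAddCircle) : |g x| ≤ ‖g‖ := by
  rw [norm_def]
  have := abs_le_supNorm g x
  have := lipConst_nonneg g
  linarith

noncomputable instance : NormedSpace ℝ LipS1 where
  norm_smul_le c f := by
    rw [norm_def, norm_def, mul_add]
    have h1 : supNorm (c • f) ≤ ‖c‖ * supNorm f := by
      refine ciSup_le fun x => ?_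
      rw [coe_smul, Pi.smul_apply, smul_eq_mul, abs_mul]
      exact mul_le_mul_of_nonneg_left (abs_le_supNorm f x) (abs_nonneg c)
    have h2 : lipConst (c • f) ≤ ‖c‖ * lipConst f := by
      refine ciSup_le fun p => ?_
      rw [coe_smul, Pi.smul_apply, Pi.smul_apply, smul_eq_mul, smul_eq_mul, ← mul_sub, abs_mul,
        mul_div_assoc]
      exact mul_le_mul_of_nonneg_left (div_le_lipConst f p.1 p.2) (abs_nonneg c)
    exact add_le_add h1 h2

/-- `Lip(𝕊¹)` carries its Borel `σ`-algebra. -/
noncomputable instance : MeasurableSpace LipS1 := borel LipS1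

instance : BorelSpace LipS1 := ⟨rfl⟩

end LipS1

/-- A set `A` in a normed space `X` is shy: there are a Borel measure `ν` and a Borel set `B ⊇ A`
with `0 < ν(K) < ∞` for some compact `K` and `ν(x + B) = 0` for every `x`. -/
def IsShy {X : Type*} [NormedAddCommGroup X] [MeasurableSpace X] [BorelSpace X] (A : Set X) :
    Prop :=
  ∃ (ν : Measure X) (B : Set X), MeasurableSet B ∧ A ⊆ B ∧
    (∃ K : Set X, IsCompact K ∧ 0 < ν K ∧ ν K < ⊤) ∧ ∀ x : X, ν ((fun y => x + y) '' B) = 0

/-- A set is prevalent if its complement is shy. -/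
def IsPrevalent {X : Type*} [NormedAddCommGroup X] [MeasurableSpace X] [BorelSpace X]
    (A : Set X) : Prop := IsShy Aᶜ

/-- The Weierstrass function `W_g(x) = ∑ b^(-αk) g(b^k x)`. -/
noncomputable def weier (α : ℝ) (b : ℕ) (g : LipS1) (x : UnitAddCircle) : ℝ :=
  ∑' k : ℕ, (b : ℝ) ^ (-(α * k)) * g (b ^ k • x)

/-- The push-forward `μ_g` of Lebesgue measure on `[0,1)` to the graph of `W_g`. -/
noncomputable def graphMeasure (α : ℝ) (b : ℕ) (g : LipS1) : Measure (ℝ × ℝ) :=
  Measure.map (fun x : ℝ => (x, weier α b g (x : UnitAddCircle))) (volume.restrict (Ico 0 1))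

/-- The `θ`-oblique occupation measure: the push-forward of `μ_g` under
`P_θ(x,y) = x cos θ + y sin θ`. -/
noncomputable def obliqueMeasure (α : ℝ) (b : ℕ) (θ : ℝ) (g : LipS1) : Measure ℝ :=
  Measure.map (fun p : ℝ × ℝ => p.1 * Real.cos θ + p.2 * Real.sin θ) (graphMeasure α b g)

end Pool.Agent.Lib.MP_2cc37a_an
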