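import Pool.Agent.Lib.MP_2cc37a_an.BadCount

/-!
Digits of real numbers, and the volume of the set of points with bad digits.
-/

namespace Pool.Agent.Lib.MP_2cc37a_an

open MeasureTheory Set

section

variable (b : ℕ) [NeZero b]

/-- The `i`-th digit of `x` in base `b`. -/
noncomputable def dig (x : ℝ) (i : ℕ) : Fin b :=
  ⟨⌊(b : ℝ) ^ (i + 1) * x⌋₊ % b, Nat.mod_lt _ (Nat.pos_of_ne_zero (NeZero.ne b))⟩

variable {b}

theorem bpos : (0 : ℝ) < b := by
  exact_mod_cast Nat.pos_of_ne_zero (NeZero.ne b)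

theorem bone : (1 : ℝ) ≤ b := by
  exact_mod_cast Nat.pos_of_ne_zero (NeZero.ne b)

theorem floor_succ_div (x : ℝ) (N : ℕ) :
    ⌊(b : ℝ) ^ (N + 1) * x⌋₊ / b = ⌊(b : ℝ) ^ N * x⌋₊ := by
  rw [← Nat.floor_div_natCast]
  congr 1
  have := (bpos (b := b)).ne'
  rw [pow_succ]
  field_simp

theorem floor_eq_of_dig {x y : ℝ} (hx : x ∈ Ico (0:ℝ) 1) (hy : y ∈ Ico (0:ℝ) 1) (N : ℕ)
    (h : ∀ i < N, dig b x i = dig b y i) : ⌊(b : ℝ) ^ N * x⌋₊ = ⌊(b : ℝ) ^ N * y⌋₊ := by
  induction N with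
  | zero =>
    rw [pow_zero, one_mul, one_mul, Nat.floor_eq_zero.mpr hx.2, Nat.floor_eq_zero.mpr hy.2]
  | succ N ih =>
    have h1 := ih fun i hi => h i (by omega)
    have h2 := congrArg Fin.val (h N (by omega))
    simp only [dig] at h2
    have h3 := Nat.div_add_mod (⌊(b : ℝ) ^ (N + 1) * x⌋₊) b
    have h4 := Nat.div_add_mod (⌊(b : ℝ) ^ (N + 1) * y⌋₊) b
    rw [floor_succ_div] at h3 h4
    rw [← h3, ← h4, h1, h2]

/-- The set of points of `[0,1)` with given first `N` digits. -/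
def fiber (b : ℕ) [NeZero b] (N : ℕ) (δ : Fin N → Fin b) : Set ℝ :=
  {x | x ∈ Ico (0:ℝ) 1 ∧ ∀ i : Fin N, dig b x i = δ i}

theorem volume_fiber_le (N : ℕ) (δ : Fin N → Fin b) :
    volume (fiber b N δ) ≤ ENNReal.ofReal (((b : ℝ) ^ N)⁻¹) := by
  rcases Set.eq_empty_or_nonempty (fiber b N δ) with h | ⟨y, hy⟩
  · rw [h]; simp
  · have hbN : (0:ℝ) < (b : ℝ) ^ N := pow_pos bpos N
    have hsub : fiber b N δ ⊆ Ico ((⌊(b : ℝ) ^ N * y⌋₊ : ℝ) / (b : ℝ) ^ N)
        ((⌊(b : ℝ) ^ N * y⌋₊ + 1 : ℝ) / (b : ℝ) ^ N) := by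
      intro x hx
      have h1 := floor_eq_of_dig hx.1 hy.1 N fun i hi => by
        rw [hx.2 ⟨i, hi⟩, hy.2 ⟨i, hi⟩]
      rw [← h1]
      constructor
      · rw [div_le_iff₀ hbN, mul_comm x]
        exact Nat.floor_le (mul_nonneg hbN.le hx.1.1)
      · rw [lt_div_iff₀ hbN, mul_comm x]
        exact Nat.lt_floor_add_one _
    refine (measure_mono hsub).trans (le_of_eq ?_)
    rw [Real.volume_Ico]
    congr 1
    rw [← sub_div, add_sub_cancel_left, one_div]

/-- The set of `x ∈ [0,1)^m` with bad digits. -/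
def BadSet (m n q L b : ℕ) [NeZero b] : Set (Fin m → ℝ) :=
  {x | (∀ j, x j ∈ Ico (0:ℝ) 1) ∧ BadD m n q L b fun j i => dig b (x j) i}

theorem volume_badSet_le {p n q L : ℕ} (hq : 0 < q) (hL : L * q ≤ n) :
    volume (BadSet (2 * p) n q L b) ≤
      ENNReal.ofReal ((2 * p * n + b : ℝ) ^ (2 * p * L) * ((b : ℝ) ^ (p * (L * q)))⁻¹) := by
  classical
  set m := 2 * p with hm
  set N := n + q with hN
  let S : Finset (Fin m × Fin N → Fin b) := Finset.univ.filter fun d =>
    ∃ D : Fin m → ℕ → Fin b, BadD m n q L b D ∧ ∀ v : Fin m × Fin N, d v = D v.1 v.2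
  have hS : S.card ^ 2 ≤ (m * n + b) ^ (2 * (m * L)) * b ^ (2 * (m * (n + q)) - m * (L * q)) :=
    card_bad_sq_le hq hL S fun d hd => by
      simpa [S] using hd
  have hS2 : S.card ≤ (m * n + b) ^ (m * L) * b ^ (m * (n + q) - p * (L * q)) := by
    refine (Nat.pow_le_pow_iff_left (n := 2) two_ne_zero).mp ?_
    refine hS.trans (le_of_eq ?_)
    rw [mul_pow, ← pow_mul, ← pow_mul, mul_comm (m * L) 2]
    congr 2
    have h1 : m * (L * q) = 2 * (p * (L * q)) := by rw [hm, mul_assoc]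
    omega
  have hsub : BadSet m n q L b ⊆ ⋃ d ∈ S, Set.pi univ fun j => fiber b N fun i => d (j, i) := by
    intro x hx
    simp only [mem_iUnion, exists_prop]
    refine ⟨fun v => dig b (x v.1) v.2, ?_, ?_⟩
    · simp only [S, Finset.mem_filter, Finset.mem_univ, true_and]
      exact ⟨_, hx.2, fun v => rfl⟩
    · intro j _
      exact ⟨hx.1 j, fun i => rfl⟩
  have hvol : ∀ d : Fin m × Fin N → Fin b,
      volume (Set.pi univ fun j => fiber b N fun i => d (j, i)) ≤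
        ENNReal.ofReal (((b : ℝ) ^ (m * N))⁻¹) := by
    intro d
    rw [volume_pi_pi]
    refine (Finset.prod_le_prod' fun j _ => volume_fiber_le N _).trans (le_of_eq ?_)
    rw [Finset.prod_const, Finset.card_univ, Fintype.card_fin, ← ENNReal.ofReal_pow (by positivity),
      inv_pow, ← pow_mul, mul_comm N m]
  calc volume (BadSet m n q L b) ≤ ∑ d ∈ S, volume (Set.pi univ fun j => fiber b N fun i => d (j, i)) :=
        (measure_mono hsub).trans (measure_biUnion_finset_le _ _)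
    _ ≤ S.card • ENNReal.ofReal (((b : ℝ) ^ (m * N))⁻¹) :=
        Finset.sum_le_card_nsmul _ _ _ fun d _ => hvol d
    _ = ENNReal.ofReal (S.card * ((b : ℝ) ^ (m * N))⁻¹) := by
        rw [ENNReal.ofReal_mul (by positivity), nsmul_eq_mul, ENNReal.ofReal_natCast]
    _ ≤ _ := by
        refine ENNReal.ofReal_le_ofReal ?_
        have hpL : p * (L * q) ≤ m * N := by
          rw [hm, hN]
          nlinarith
        have h1 : (S.card : ℝ) ≤ (m * n + b : ℝ) ^ (m * L) * (b : ℝ) ^ (m * (n + q) - p * (L * q)) := by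
          exact_mod_cast hS2
        calc (S.card : ℝ) * ((b : ℝ) ^ (m * N))⁻¹
            ≤ ((m * n + b : ℝ) ^ (m * L) * (b : ℝ) ^ (m * N - p * (L * q))) *
              ((b : ℝ) ^ (m * N))⁻¹ := mul_le_mul_of_nonneg_right h1 (by positivity)
          _ = (2 * p * n + b : ℝ) ^ (2 * p * L) * ((b : ℝ) ^ (p * (L * q)))⁻¹ := by
              have hb := (bpos (b := b)).ne'
              rw [pow_sub₀ _ hb hpL]
              have : (b : ℝ) ^ (m * N) ≠ 0 := pow_ne_zero _ hb
              have h2 : (m : ℝ) = 2 * p := by rw [hm]; push_cast; ring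
              rw [h2]
              field_simp
              rw [hm]

end

end Pool.Agent.Lib.MP_2cc37a_an
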