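import Pool.Agent.Lib.MP_2cc37a_an.Asym

/-!
Almost sure decay of the Fourier transforms, uniformly in the direction, and prevalence.
-/

namespace Pool.Agent.Lib.MP_2cc37a_an

open MeasureTheory Set Filter Topology
open scoped ENNReal

variable {α : ℝ} {b : ℕ}

theorem norm_ee_sub_le (s t : ℝ) : ‖ee s - ee t‖ ≤ 2 * Real.pi * |s - t| := by
  have h : ee s - ee t = ee t * (ee (s - t) - 1) := by
    rw [mul_sub, ← ee_add, mul_one]; congr 2; ring
  rw [h, norm_mul, norm_ee, one_mul]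
  unfold ee
  have h2 := Real.norm_exp_I_mul_ofReal_sub_one_le (x := 2 * Real.pi * (s - t))
  rw [mul_comm Complex.I] at h2
  refine h2.trans (le_of_eq ?_)
  rw [Real.norm_eq_abs, abs_mul, abs_mul, abs_of_pos Real.pi_pos]
  norm_num

theorem Phi_lipschitz (hb : 2 ≤ b) (hα : 0 < α) (g : LipS1) :
    ∃ M : ℝ, 1 ≤ M ∧ ∀ η s η' s' : ℝ,
      ‖Phi α b g η s - Phi α b g η' s'‖ ≤ M * max |η - η'| |s - s'| := by
  set W : ℝ := (1 - rat α b)⁻¹ * ‖g‖ with hW
  have h1ρ : 0 < 1 - rat α b := by linarith [rat_lt_one (α := α) hb hα]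
  have hW0 : 0 ≤ W := by positivity
  refine ⟨2 * Real.pi * (W + 1), ?_, fun η s η' s' => ?_⟩
  · have := Real.pi_gt_three
    nlinarith
  · have hci : ∀ η s : ℝ, Integrable (fun x : ℝ => ee (η * weier α b g (x : UnitAddCircle) + s * x)) lam := by
      intro η s
      refine Integrable.of_bound (C := 1) ?_ (Eventually.of_forall fun x => (norm_ee _).le)
      have hc : Continuous fun x : ℝ => ee (η * weier α b g (x : UnitAddCircle) + s * x) := by
        refine continuous_ee.comp ?_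
        have h1 : Continuous fun x : ℝ => weier α b g (x : UnitAddCircle) :=
          (continuous_weier_right hb hα g).comp (AddCircle.continuous_mk' 1)
        fun_prop
      exact hc.aestronglyMeasurable
    rw [Phi_eq, Phi_eq, ← integral_sub (hci _ _) (hci _ _)]
    refine (norm_integral_le_integral_norm _).trans ?_
    have h2 : ∀ᵐ x : ℝ ∂lam, ‖ee (η * weier α b g (x : UnitAddCircle) + s * x) -
        ee (η' * weier α b g (x : UnitAddCircle) + s' * x)‖ ≤
        2 * Real.pi * (W + 1) * max |η - η'| |s - s'| := by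
      unfold lam
      filter_upwards [ae_restrict_mem measurableSet_Ico] with x hx
      refine (norm_ee_sub_le _ _).trans ?_
      rw [mul_assoc (2 * Real.pi)]
      refine mul_le_mul_of_nonneg_left ?_ (by positivity)
      have h3 : η * weier α b g (x : UnitAddCircle) + s * x -
          (η' * weier α b g (x : UnitAddCircle) + s' * x) =
          weier α b g (x : UnitAddCircle) * (η - η') + x * (s - s') := by ring
      rw [h3]
      refine (abs_add_le _ _).trans ?_
      rw [abs_mul, abs_mul, add_mul, one_mul]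
      refine add_le_add ?_ ?_
      · exact mul_le_mul (abs_weier_le hb hα g _) (le_max_left _ _) (abs_nonneg _) hW0
      · have hx1 : |x| ≤ 1 := by rw [abs_of_nonneg hx.1]; exact hx.2.le
        calc |x| * |s - s'| ≤ 1 * |s - s'| := mul_le_mul_of_nonneg_right hx1 (abs_nonneg _)
          _ ≤ _ := by rw [one_mul]; exact le_max_right _ _
    calc ∫ x, ‖ee (η * weier α b g (x : UnitAddCircle) + s * x) -
        ee (η' * weier α b g (x : UnitAddCircle) + s' * x)‖ ∂lam
        ≤ ∫ _, 2 * Real.pi * (W + 1) * max |η - η'| |s - s'| ∂lam :=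
          integral_mono_of_nonneg (Eventually.of_forall fun x => norm_nonneg _)
            (integrable_const _) h2
      _ = _ := by simp

/-- The region `|η| ≥ 1`, `|s| ≤ T |η|`. -/
def Reg (T : ℝ) : Set (ℝ × ℝ) := {z | 1 ≤ |z.1| ∧ |z.2| ≤ T * |z.1|}

theorem measurableSet_Reg (T : ℝ) : MeasurableSet (Reg T) := by
  unfold Reg
  apply MeasurableSet.inter
  · exact measurableSet_le measurable_const continuous_fst.abs.measurable
  · exact measurableSet_le continuous_snd.abs.measurable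
      (continuous_const.mul continuous_fst.abs).measurable

/-- Deterministic step: an integral bound implies a pointwise bound. -/
theorem pointwise_of_integral (hb : 2 ≤ b) (hα : 0 < α) (g : LipS1) (p : ℕ) (T : ℕ)
    (h : ∫⁻ z in Reg (2 * T + 1), ENNReal.ofReal (‖Phi α b g z.1 z.2‖ ^ (2 * p) * |z.1| ^ (p + 2)) < ⊤) :
    ∃ C : ℕ, ∀ η s : ℝ, 2 ≤ |η| → |s| ≤ T * |η| →
      ‖Phi α b g η s‖ ^ (2 * p + 2) * |η| ^ (p + 2) ≤ C := by
  obtain ⟨M, hM1, hM⟩ := Phi_lipschitz hb hα g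
  set A := ∫⁻ z in Reg (2 * T + 1),
    ENNReal.ofReal (‖Phi α b g z.1 z.2‖ ^ (2 * p) * |z.1| ^ (p + 2)) with hA
  obtain ⟨C, hC⟩ := exists_nat_gt (A.toReal * M ^ 2 * 2 ^ (2 * p) * 2 ^ (p + 2))
  refine ⟨C, fun η s hη hs => le_trans ?_ hC.le⟩
  set δ := ‖Phi α b g η s‖ with hδ
  have hδ0 : 0 ≤ δ := norm_nonneg _
  have hδ1 : δ ≤ 1 := norm_Phi_le_one _ _ _
  rcases eq_or_lt_of_le hδ0 with h0 | hδpos
  · rw [← h0, zero_pow (by omega), zero_mul]
    positivity
  set r : ℝ := δ / (2 * M) with hr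
  have hr0 : 0 < r := by positivity
  have hr1 : r ≤ 1 / 2 := by
    rw [hr, div_le_iff₀ (by positivity)]
    linarith
  set B : Set (ℝ × ℝ) := Icc (η - r) (η + r) ×ˢ Icc (s - r) (s + r) with hB
  have hBm : MeasurableSet B := measurableSet_Icc.prod measurableSet_Icc
  have hBd : ∀ z ∈ B, |η - z.1| ≤ r ∧ |s - z.2| ≤ r := by
    rintro ⟨z1, z2⟩ ⟨⟨h1, h2⟩, h3, h4⟩
    simp only at h1 h2 h3 h4 ⊢
    constructor <;> rw [abs_le] <;> constructor <;> linarith
  have hT : (0:ℝ) ≤ T := Nat.cast_nonneg T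
  have hη2 : ∀ z ∈ B, |η| / 2 ≤ |z.1| ∧ |z.1| ≥ 1 ∧ |η| ≤ |z.1| + 1/2 := by
    intro z hz
    have h1 := (hBd z hz).1
    have h2 : |η| - |z.1| ≤ |η - z.1| := abs_sub_abs_le_abs_sub _ _
    refine ⟨by linarith, by linarith, by linarith⟩
  have hBR : B ⊆ Reg (2 * T + 1) := by
    intro z hz
    obtain ⟨h1, h2, h3⟩ := hη2 z hz
    refine ⟨h2, ?_⟩
    have h4 : |z.2| - |s| ≤ |s - z.2| := by
      rw [abs_sub_comm]; exact abs_sub_abs_le_abs_sub _ _
    have h5 := (hBd z hz).2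
    have h6 : (T:ℝ) * |η| ≤ T * (|z.1| + 1/2) := mul_le_mul_of_nonneg_left h3 hT
    nlinarith
  have hlow : ∀ z ∈ B, (δ / 2) ^ (2 * p) * (|η| / 2) ^ (p + 2) ≤
      ‖Phi α b g z.1 z.2‖ ^ (2 * p) * |z.1| ^ (p + 2) := by
    intro z hz
    have h1 := hM η s z.1 z.2
    have h2 : M * max |η - z.1| |s - z.2| ≤ M * r :=
      mul_le_mul_of_nonneg_left (max_le (hBd z hz).1 (hBd z hz).2) (by linarith)
    have h3 : M * r = δ / 2 := by rw [hr]; field_simp
    have h4 : δ - ‖Phi α b g z.1 z.2‖ ≤ ‖Phi α b g η s - Phi α b g z.1 z.2‖ := norm_sub_norm_le _ _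
    have h5 : δ / 2 ≤ ‖Phi α b g z.1 z.2‖ := by linarith
    exact mul_le_mul (pow_le_pow_left₀ (by positivity) h5 _)
      (pow_le_pow_left₀ (by positivity) (hη2 z hz).1 _) (by positivity) (by positivity)
  have hvolB : volume B = ENNReal.ofReal ((2 * r) ^ 2) := by
    rw [hB, Measure.volume_eq_prod, Measure.prod_prod, Real.volume_Icc, Real.volume_Icc,
      ← ENNReal.ofReal_mul (by linarith)]
    congr 1
    ring
  have hint : ENNReal.ofReal ((δ / 2) ^ (2 * p) * (|η| / 2) ^ (p + 2) * (2 * r) ^ 2) ≤ A := by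
    rw [ENNReal.ofReal_mul (by positivity), ← hvolB]
    calc ENNReal.ofReal ((δ / 2) ^ (2 * p) * (|η| / 2) ^ (p + 2)) * volume B
        = ∫⁻ _ in B, ENNReal.ofReal ((δ / 2) ^ (2 * p) * (|η| / 2) ^ (p + 2)) := by
          rw [setLIntegral_const]
      _ ≤ ∫⁻ z in B, ENNReal.ofReal (‖Phi α b g z.1 z.2‖ ^ (2 * p) * |z.1| ^ (p + 2)) := by
          refine setLIntegral_mono' hBm fun z hz => ENNReal.ofReal_le_ofReal (hlow z hz)
      _ ≤ A := lintegral_mono_set hBR
  have hreal : (δ / 2) ^ (2 * p) * (|η| / 2) ^ (p + 2) * (2 * r) ^ 2 ≤ A.toReal := by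
    rw [← ENNReal.ofReal_le_iff_le_toReal h.ne]
    exact hint
  have h2r : (2 * r) ^ 2 = δ ^ 2 / M ^ 2 := by
    rw [hr]; field_simp
  rw [h2r] at hreal
  have hMpos : 0 < M := by linarith
  calc δ ^ (2 * p + 2) * |η| ^ (p + 2)
      = ((δ / 2) ^ (2 * p) * (|η| / 2) ^ (p + 2) * (δ ^ 2 / M ^ 2)) *
        (M ^ 2 * 2 ^ (2 * p) * 2 ^ (p + 2)) := by
        rw [div_pow, div_pow, pow_add δ]
        field_simp
    _ ≤ A.toReal * (M ^ 2 * 2 ^ (2 * p) * 2 ^ (p + 2)) :=
        mul_le_mul_of_nonneg_right hreal (by positivity)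
    _ = _ := by ring

/-- The set of functions for which the Fourier transforms decay. -/
def GoodSet (α : ℝ) (b p : ℕ) : Set LipS1 :=
  {g | ∀ T : ℕ, ∃ C : ℕ, ∀ η s : ℝ, 2 ≤ |η| → |s| ≤ T * |η| →
    ‖Phi α b g η s‖ ^ (2 * p + 2) * |η| ^ (p + 2) ≤ C}

theorem measurableSet_goodSet (hb : 2 ≤ b) (hα : 0 < α) (p : ℕ) :
    MeasurableSet (GoodSet α b p) := by
  have h : GoodSet α b p = ⋂ T : ℕ, ⋃ C : ℕ, ⋂ η : ℝ, ⋂ s : ℝ, ⋂ (_ : 2 ≤ |η|),
      ⋂ (_ : |s| ≤ T * |η|), {g | ‖Phi α b g η s‖ ^ (2 * p + 2) * |η| ^ (p + 2) ≤ C} := by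
    ext g
    simp only [GoodSet, mem_iInter, mem_iUnion, Set.mem_ofPred_eq]
  rw [h]
  refine MeasurableSet.iInter fun T => MeasurableSet.iUnion fun C => IsClosed.measurableSet ?_
  refine isClosed_iInter fun η => isClosed_iInter fun s => isClosed_iInter fun _ =>
    isClosed_iInter fun _ => ?_
  have hc : Continuous fun g : LipS1 => Phi α b g η s := by
    have h1 : Continuous fun g : LipS1 => ((g, (η, s)) : LipS1 × ℝ × ℝ) :=
      continuous_id.prodMk continuous_const
    exact (continuous_Phi hb hα).comp h1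
  exact isClosed_le ((hc.norm.pow _).mul continuous_const) continuous_const

theorem lintegral_Reg_lt_top (T C : ℝ) (hT : 0 ≤ T) (hC : 0 ≤ C) :
    ∫⁻ z in Reg T, ENNReal.ofReal (C * (|z.1| ^ 3)⁻¹) < ⊤ := by
  have h1 : Integrable (fun z : ℝ × ℝ => (1 + ‖z.1‖) ^ (-(3 / 2 : ℝ)) * (1 + ‖z.2‖) ^ (-(3 / 2 : ℝ)))
      volume := by
    have h2 : Integrable (fun x : ℝ => (1 + ‖x‖) ^ (-(3 / 2 : ℝ))) volume :=
      integrable_one_add_norm (by simp; norm_num)
    exact h2.mul_prod h2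
  have h3 := (h1.const_mul (C * (2 ^ (3 / 2 : ℝ) * (1 + T) ^ (3 / 2 : ℝ)))).lintegral_lt_top
  refine lt_of_le_of_lt ?_ h3
  refine le_trans ?_ (setLIntegral_le_lintegral (Reg T) _)
  refine setLIntegral_mono' (measurableSet_Reg T) fun z hz => ENNReal.ofReal_le_ofReal ?_
  obtain ⟨hz1, hz2⟩ := hz
  rw [Real.norm_eq_abs, Real.norm_eq_abs, mul_assoc]
  refine mul_le_mul_of_nonneg_left ?_ hC
  set x := |z.1| with hx
  set y := |z.2| with hy
  have hx0 : 0 < x := by linarith
  have hy0 : 0 ≤ y := abs_nonneg _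
  have e1 : (1 + x) ^ (3 / 2 : ℝ) ≤ 2 ^ (3 / 2 : ℝ) * x ^ (3 / 2 : ℝ) := by
    rw [← Real.mul_rpow (by norm_num) hx0.le]
    exact Real.rpow_le_rpow (by linarith) (by linarith) (by norm_num)
  have e2 : (1 + y) ^ (3 / 2 : ℝ) ≤ (1 + T) ^ (3 / 2 : ℝ) * x ^ (3 / 2 : ℝ) := by
    rw [← Real.mul_rpow (by linarith) hx0.le]
    exact Real.rpow_le_rpow (by linarith) (by nlinarith) (by norm_num)
  have e3 : x ^ (3 / 2 : ℝ) * x ^ (3 / 2 : ℝ) = x ^ 3 := by
    rw [← Real.rpow_add hx0, ← Real.rpow_natCast]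
    norm_num
  have p1 : 0 < (1 + x) ^ (3 / 2 : ℝ) := Real.rpow_pos_of_pos (by linarith) _
  have p2 : 0 < (1 + y) ^ (3 / 2 : ℝ) := Real.rpow_pos_of_pos (by linarith) _
  rw [Real.rpow_neg (by linarith), Real.rpow_neg (by linarith), ← mul_inv,
    inv_le_iff_one_le_mul₀ (by positivity)]
  have e4 : (1 + x) ^ (3 / 2 : ℝ) * (1 + y) ^ (3 / 2 : ℝ) ≤
      (2 ^ (3 / 2 : ℝ) * (1 + T) ^ (3 / 2 : ℝ)) * x ^ 3 := by
    calc (1 + x) ^ (3 / 2 : ℝ) * (1 + y) ^ (3 / 2 : ℝ) ≤
        (2 ^ (3 / 2 : ℝ) * x ^ (3 / 2 : ℝ)) * ((1 + T) ^ (3 / 2 : ℝ) * x ^ (3 / 2 : ℝ)) :=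
          mul_le_mul e1 e2 p2.le (by positivity)
      _ = (2 ^ (3 / 2 : ℝ) * (1 + T) ^ (3 / 2 : ℝ)) * (x ^ (3 / 2 : ℝ) * x ^ (3 / 2 : ℝ)) := by ring
      _ = _ := by rw [e3]
  rw [mul_right_comm, ← div_eq_mul_inv, one_le_div (by positivity)]
  exact e4

theorem ae_goodSet [NeZero b] (hb : 2 ≤ b) (hα : 0 < α) {p Λ : ℕ} {C : ℝ} (hC : 0 < C)
    (hmom : ∀ (g₀ : LipS1) (η s : ℝ), 1 ≤ |η| →
      ∫ c, ‖Phi α b (g₀ + gc b Λ c) η s‖ ^ (2 * p) ∂(PP b Λ) ≤ C * (|η| ^ (p + 5))⁻¹)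
    (g₀ : LipS1) : ∀ᵐ c ∂(PP b Λ), g₀ + gc b Λ c ∈ GoodSet α b p := by
  have hcont : Continuous fun w : Par b Λ × ℝ × ℝ => Phi α b (g₀ + gc b Λ w.1) w.2.1 w.2.2 := by
    have h1 : Continuous fun w : Par b Λ × ℝ × ℝ =>
        ((g₀ + gc b Λ w.1, w.2) : LipS1 × ℝ × ℝ) :=
      (continuous_const.add ((continuous_gc hb).comp continuous_fst)).prodMk continuous_snd
    exact (continuous_Phi hb hα).comp h1
  have hmeas : Measurable (Function.uncurry fun (c : Par b Λ) (z : ℝ × ℝ) =>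
      ENNReal.ofReal (‖Phi α b (g₀ + gc b Λ c) z.1 z.2‖ ^ (2 * p) * |z.1| ^ (p + 2))) := by
    refine ENNReal.measurable_ofReal.comp ?_
    have h2 : Continuous fun w : Par b Λ × ℝ × ℝ => |w.2.1| :=
      (continuous_fst.comp continuous_snd).abs
    exact ((hcont.norm.pow _).mul (h2.pow _)).measurable
  have key : ∀ T : ℕ, ∀ᵐ c ∂(PP b Λ), ∫⁻ z in Reg (2 * T + 1),
      ENNReal.ofReal (‖Phi α b (g₀ + gc b Λ c) z.1 z.2‖ ^ (2 * p) * |z.1| ^ (p + 2)) < ⊤ := by
    intro T
    refine ae_lt_top (hmeas.lintegral_prod_right') ?_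
    rw [lintegral_lintegral_swap hmeas.aemeasurable]
    refine (lt_of_le_of_lt ?_ (lintegral_Reg_lt_top (2 * T + 1) C (by positivity) hC.le)).ne
    refine setLIntegral_mono' (measurableSet_Reg _) fun z hz => ?_
    have hz1 : 1 ≤ |z.1| := hz.1
    have hi : Integrable (fun c => ‖Phi α b (g₀ + gc b Λ c) z.1 z.2‖ ^ (2 * p) * |z.1| ^ (p + 2))
        (PP b Λ) := by
      refine Integrable.mul_const ?_ _
      refine Integrable.of_bound (C := 1) ?_ (Eventually.of_forall fun c => ?_)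
      · have h1 : Continuous fun c : Par b Λ => ((c, z) : Par b Λ × ℝ × ℝ) :=
          continuous_id.prodMk continuous_const
        exact ((hcont.comp h1).norm.pow _).aestronglyMeasurable
      · rw [Real.norm_of_nonneg (by positivity)]
        exact pow_le_one₀ (norm_nonneg _) (norm_Phi_le_one _ _ _)
    rw [← ofReal_integral_eq_lintegral_ofReal hi (Eventually.of_forall fun c => by positivity),
      integral_mul_const]
    refine ENNReal.ofReal_le_ofReal ?_
    calc (∫ c, ‖Phi α b (g₀ + gc b Λ c) z.1 z.2‖ ^ (2 * p) ∂(PP b Λ)) * |z.1| ^ (p + 2)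
        ≤ C * (|z.1| ^ (p + 5))⁻¹ * |z.1| ^ (p + 2) :=
          mul_le_mul_of_nonneg_right (hmom g₀ z.1 z.2 hz1) (by positivity)
      _ = C * (|z.1| ^ 3)⁻¹ := by
          have h5 : |z.1| ^ (p + 5) = |z.1| ^ (p + 2) * |z.1| ^ 3 := by rw [← pow_add]
          have h6 : |z.1| ^ (p + 2) ≠ 0 := by positivity
          rw [h5]
          field_simp
  have key' := ae_all_iff.mpr key
  filter_upwards [key'] with c hc T
  exact pointwise_of_integral hb hα _ p T (hc T)

theorem goodSet_subset (hb : 2 ≤ b) (hα : 0 < α) (p : ℕ) (g : LipS1) (hg : g ∈ GoodSet α b p)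
    (θ : ℝ) : obliqueMeasure α b θ g ≪ (volume : Measure ℝ) := by
  have hW : Continuous fun x : ℝ => weier α b g (x : UnitAddCircle) :=
    (continuous_weier_right hb hα g).comp (AddCircle.continuous_mk' 1)
  have hmap : obliqueMeasure α b θ g = Measure.map
      (fun x : ℝ => x * Real.cos θ + weier α b g (x : UnitAddCircle) * Real.sin θ) lam := by
    unfold obliqueMeasure graphMeasure lam
    rw [Measure.map_map (by fun_prop) (by fun_prop)]
    rfl
  have hcf : Continuous fun x : ℝ => x * Real.cos θ + weier α b g (x : UnitAddCircle) * Real.sin θ := by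
    fun_prop
  rw [hmap]
  by_cases hs : Real.sin θ = 0
  · have hcos : Real.cos θ ≠ 0 := by
      intro h
      have := Real.sin_sq_add_cos_sq θ
      rw [hs, h] at this
      norm_num at this
    refine Measure.AbsolutelyContinuous.mk fun s hsm h0 => ?_
    rw [Measure.map_apply hcf.measurable hsm]
    have h1 : (fun x : ℝ => x * Real.cos θ + weier α b g (x : UnitAddCircle) * Real.sin θ) ⁻¹' s =
        (fun x : ℝ => x * Real.cos θ) ⁻¹' s := by
      ext x; simp [hs]
    rw [h1]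
    refine le_antisymm ?_ zero_le
    refine (Measure.restrict_apply_le _ _).trans ?_
    rw [Real.volume_preimage_mul_right hcos, h0, mul_zero]
  · have : IsProbabilityMeasure (Measure.map
        (fun x : ℝ => x * Real.cos θ + weier α b g (x : UnitAddCircle) * Real.sin θ) lam) :=
      Measure.isProbabilityMeasure_map hcf.aemeasurable
    have hft : ∀ ξ : ℝ, ∫ y, ee (y * ξ) ∂(Measure.map
        (fun x : ℝ => x * Real.cos θ + weier α b g (x : UnitAddCircle) * Real.sin θ) lam) =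
        Phi α b g (ξ * Real.sin θ) (ξ * Real.cos θ) := by
      intro ξ
      have hce : Continuous fun y : ℝ => ee (y * ξ) := continuous_ee.comp (by fun_prop)
      rw [integral_map hcf.aemeasurable hce.aestronglyMeasurable, Phi_eq]
      refine integral_congr_ae (Eventually.of_forall fun x => ?_)
      simp only
      congr 1
      ring
    have hs0 : 0 < |Real.sin θ| := abs_pos.mpr hs
    have hs1 : |Real.sin θ| ≤ 1 := Real.abs_sin_le_one θ
    obtain ⟨T, hT⟩ := exists_nat_ge (|Real.cos θ| / |Real.sin θ|)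
    rw [div_le_iff₀ hs0] at hT
    obtain ⟨C, hC⟩ := hg T
    -- polynomial bound
    set R : ℝ := 1 + 2 / |Real.sin θ| with hR
    have hR1 : 1 ≤ R := by
      have : 0 ≤ 2 / |Real.sin θ| := by positivity
      linarith
    set C₃ : ℝ := R ^ (p + 2) + C * (2 / |Real.sin θ|) ^ (p + 2) with hC₃
    have hC₃0 : 0 < C₃ := by positivity
    have hpoly : ∀ ξ : ℝ, ‖Phi α b g (ξ * Real.sin θ) (ξ * Real.cos θ)‖ ^ (2 * p + 2) *
        (1 + |ξ|) ^ (p + 2) ≤ C₃ := by
      intro ξ
      set X := ‖Phi α b g (ξ * Real.sin θ) (ξ * Real.cos θ)‖ with hX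
      have hX0 : 0 ≤ X := norm_nonneg _
      have hX1 : X ≤ 1 := norm_Phi_le_one _ _ _
      rcases lt_or_ge |ξ * Real.sin θ| 2 with hlt | hge
      · have h1 : 1 + |ξ| ≤ R := by
          rw [hR]
          have : |ξ| ≤ 2 / |Real.sin θ| := by
            rw [le_div_iff₀ hs0, ← abs_mul]; exact hlt.le
          linarith
        calc X ^ (2 * p + 2) * (1 + |ξ|) ^ (p + 2) ≤ 1 * R ^ (p + 2) :=
              mul_le_mul (pow_le_one₀ hX0 hX1) (pow_le_pow_left₀ (by positivity) h1 _)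
                (by positivity) zero_le_one
          _ ≤ C₃ := by
              rw [hC₃, one_mul]
              have : 0 ≤ (C:ℝ) * (2 / |Real.sin θ|) ^ (p + 2) := by positivity
              linarith
      · have h1 := hC (ξ * Real.sin θ) (ξ * Real.cos θ) hge (by
          rw [abs_mul, abs_mul, mul_left_comm]
          exact mul_le_mul_of_nonneg_left hT (abs_nonneg ξ))
        have hξ : 1 ≤ |ξ| := by
          rw [abs_mul] at hge
          nlinarith [abs_nonneg ξ]
        have h2 : 1 + |ξ| ≤ (2 / |Real.sin θ|) * |ξ * Real.sin θ| := by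
          rw [abs_mul]
          have : 2 / |Real.sin θ| * (|ξ| * |Real.sin θ|) = 2 * |ξ| := by field_simp
          rw [this]
          linarith
        calc X ^ (2 * p + 2) * (1 + |ξ|) ^ (p + 2)
            ≤ X ^ (2 * p + 2) * ((2 / |Real.sin θ|) * |ξ * Real.sin θ|) ^ (p + 2) :=
              mul_le_mul_of_nonneg_left (pow_le_pow_left₀ (by positivity) h2 _) (by positivity)
          _ = (X ^ (2 * p + 2) * |ξ * Real.sin θ| ^ (p + 2)) * (2 / |Real.sin θ|) ^ (p + 2) := by
              rw [mul_pow]; ring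
          _ ≤ C * (2 / |Real.sin θ|) ^ (p + 2) := mul_le_mul_of_nonneg_right h1 (by positivity)
          _ ≤ C₃ := by
              rw [hC₃]
              have : 0 ≤ R ^ (p + 2) := by positivity
              linarith
    refine ac_of_fourier_decay (C₃ ^ (1 / (2 * p + 2) : ℝ)) ((p + 2) / (2 * p + 2)) ?_ ?_
    · rw [lt_div_iff₀ (by positivity)]
      linarith
    · intro ξ
      rw [hft ξ]
      set X := ‖Phi α b g (ξ * Real.sin θ) (ξ * Real.cos θ)‖ with hX
      have hX0 : 0 ≤ X := norm_nonneg _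
      have hy : 0 < 1 + |ξ| := by positivity
      have h1 := hpoly ξ
      have h2 : X ^ (2 * p + 2) ≤ C₃ * (1 + |ξ|) ^ (-(p + 2 : ℝ)) := by
        rw [Real.rpow_neg hy.le, ← div_eq_mul_inv, le_div_iff₀ (by positivity)]
        have : (1 + |ξ|) ^ ((p : ℝ) + 2) = (1 + |ξ|) ^ (p + 2) := by
          rw [← Real.rpow_natCast]; push_cast; rfl
        rw [this]
        exact h1
      have h3 : X = (X ^ (2 * p + 2)) ^ (1 / (2 * p + 2) : ℝ) := by
        rw [← Real.rpow_natCast, ← Real.rpow_mul hX0]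
        push_cast
        rw [mul_one_div_cancel (by positivity), Real.rpow_one]
      calc X = (X ^ (2 * p + 2)) ^ (1 / (2 * p + 2) : ℝ) := h3
        _ ≤ (C₃ * (1 + |ξ|) ^ (-(p + 2 : ℝ))) ^ (1 / (2 * p + 2) : ℝ) :=
            Real.rpow_le_rpow (by positivity) h2 (by positivity)
        _ = C₃ ^ (1 / (2 * p + 2) : ℝ) * (1 + |ξ|) ^ (-(((p : ℝ) + 2) / (2 * p + 2))) := by
            rw [Real.mul_rpow hC₃0.le (by positivity), ← Real.rpow_mul hy.le]
            congr 2
            ring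

theorem main (b : ℕ) (hb : 2 ≤ b) (α : ℝ) (hα : 0 < α) (hα1 : α < 1) :
    IsPrevalent {g : LipS1 | ∀ θ : ℝ, obliqueMeasure α b θ g ≪ (volume : Measure ℝ)} := by
  have : NeZero b := ⟨by omega⟩
  obtain ⟨p, Λ, C, hp, hC, hmom⟩ := exists_moment_bound hb hα hα1
  have hae := ae_goodSet hb hα hC hmom
  have hgm : Measurable (gc b Λ) := (continuous_gc hb).measurable
  have hGm := measurableSet_goodSet hb hα p
  refine ⟨Measure.map (gc b Λ) (PP b Λ), (GoodSet α b p)ᶜ, hGm.compl, ?_,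
    ⟨range (gc b Λ), isCompact_range (continuous_gc hb), ?_⟩, ?_⟩
  · intro g hg hgood
    exact hg fun θ => goodSet_subset hb hα p g hgood θ
  · have hK : MeasurableSet (range (gc b Λ)) :=
      (isCompact_range (continuous_gc hb)).isClosed.measurableSet
    rw [Measure.map_apply hgm hK, preimage_range, measure_univ]
    exact ⟨one_pos, ENNReal.one_lt_top⟩
  · intro x
    have himg : (fun y => x + y) '' (GoodSet α b p)ᶜ = {y | -x + y ∈ (GoodSet α b p)ᶜ} := by
      ext y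
      constructor
      · rintro ⟨z, hz, rfl⟩
        simpa using hz
      · intro hy
        exact ⟨-x + y, hy, by simp⟩
    have hmeas : MeasurableSet {y : LipS1 | -x + y ∈ (GoodSet α b p)ᶜ} := by
      have hc : Continuous fun y : LipS1 => -x + y := continuous_const.add continuous_id
      exact hc.measurable hGm.compl
    rw [himg, Measure.map_apply hgm hmeas]
    exact hae (-x)

end Pool.Agent.Lib.MP_2cc37a_an
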