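import Pool.Agent.Lib.MP_2cc37a_an.Probe

/-!
The moment bound for the Fourier transforms of the oblique occupation measures.
-/

namespace Pool.Agent.Lib.MP_2cc37a_an

open MeasureTheory Set Filter Topology

section

variable {α : ℝ} {b : ℕ}

/-- The double Fourier transform of the graph measure. -/
noncomputable def Phi (α : ℝ) (b : ℕ) (g : LipS1) (η s : ℝ) : ℂ :=
  ∫ x in Ico (0:ℝ) 1, ee (η * weier α b g (x : UnitAddCircle) + s * x)

/-- Lebesgue measure on `[0,1)`. -/
noncomputable def lam : Measure ℝ := volume.restrict (Ico (0:ℝ) 1)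

instance : IsProbabilityMeasure lam := ⟨by simp [lam]⟩

theorem Phi_eq (g : LipS1) (η s : ℝ) :
    Phi α b g η s = ∫ x, ee (η * weier α b g (x : UnitAddCircle) + s * x) ∂lam := rfl

theorem norm_Phi_le_one (g : LipS1) (η s : ℝ) : ‖Phi α b g η s‖ ≤ 1 := by
  rw [Phi_eq]
  refine (norm_integral_le_integral_norm _).trans ?_
  simp [norm_ee]

theorem continuous_Phi (hb : 2 ≤ b) (hα : 0 < α) :
    Continuous fun p : LipS1 × ℝ × ℝ => Phi α b p.1 p.2.1 p.2.2 := by
  unfold Phi
  refine continuous_of_dominated (bound := fun _ => 1) ?_ ?_ (integrable_const _) ?_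
  · intro p
    have hc : Continuous fun x : ℝ => ee (p.2.1 * weier α b p.1 (x : UnitAddCircle) + p.2.2 * x) := by
      refine continuous_ee.comp ?_
      have h1 : Continuous fun x : ℝ => weier α b p.1 (x : UnitAddCircle) :=
        (continuous_weier_right hb hα p.1).comp (AddCircle.continuous_mk' 1)
      fun_prop
    exact hc.aestronglyMeasurable
  · intro p
    exact Eventually.of_forall fun x => (norm_ee _).le
  · refine Eventually.of_forall fun x => ?_
    refine continuous_ee.comp ?_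
    have h1 : Continuous fun p : LipS1 × ℝ × ℝ => weier α b p.1 (x : UnitAddCircle) :=
      (continuous_weier hb hα).comp (continuous_fst.prodMk continuous_const)
    fun_prop

/-- The signs. -/
def sgn (p : ℕ) (j : Fin (2 * p)) : ℝ := if (j : ℕ) < p then 1 else -1

theorem abs_sgn (p : ℕ) (j : Fin (2 * p)) : |sgn p j| = 1 := by
  unfold sgn; split_ifs <;> simp

theorem ee_neg (t : ℝ) : ee (-t) = (starRingEnd ℂ) (ee t) := by
  unfold ee
  rw [← Complex.exp_conj, map_mul, Complex.conj_I, Complex.conj_ofReal]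
  congr 1
  push_cast
  ring

theorem ee_sum {ι : Type*} (s : Finset ι) (f : ι → ℝ) : ee (∑ i ∈ s, f i) = ∏ i ∈ s, ee (f i) := by
  classical
  induction s using Finset.induction_on with
  | empty => simp [ee_zero]
  | insert a s ha ih => rw [Finset.sum_insert ha, Finset.prod_insert ha, ee_add, ih]

/-- The product measure on `[0,1)^m`. -/
noncomputable def QQ (m : ℕ) : Measure (Fin m → ℝ) := Measure.pi fun _ => lam

instance (m : ℕ) : IsProbabilityMeasure (QQ m) := by unfold QQ; infer_instance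

theorem QQ_le (m : ℕ) (A : Set (Fin m → ℝ)) : QQ m A ≤ volume A := by
  unfold QQ lam
  rw [← Measure.restrict_pi_pi]
  exact Measure.restrict_apply_le _ _

theorem QQ_ae (m : ℕ) : ∀ᵐ x ∂(QQ m), ∀ j, x j ∈ Ico (0:ℝ) 1 := by
  unfold QQ lam
  rw [← Measure.restrict_pi_pi]
  have hm : MeasurableSet (Set.pi univ fun _ : Fin m => Ico (0:ℝ) 1) :=
    MeasurableSet.univ_pi fun _ => measurableSet_Ico
  filter_upwards [ae_restrict_mem hm] with x hx j
  exact hx j (mem_univ j)

theorem norm_Phi_pow (p : ℕ) (g : LipS1) (η s : ℝ) :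
    ((‖Phi α b g η s‖ ^ (2 * p) : ℝ) : ℂ) =
      ∫ x, ee (η * ell α b (sgn p) x g + s * ∑ j, sgn p j * x j) ∂(QQ (2 * p)) := by
  have h1 : ∀ x : Fin (2 * p) → ℝ, ee (η * ell α b (sgn p) x g + s * ∑ j, sgn p j * x j) =
      ∏ j, ee (sgn p j * (η * weier α b g (x j : UnitAddCircle) + s * x j)) := by
    intro x
    rw [← ee_sum]
    congr 1
    unfold ell
    rw [Finset.mul_sum, Finset.mul_sum, ← Finset.sum_add_distrib]
    refine Finset.sum_congr rfl fun j _ => ?_
    ring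
  simp_rw [h1]
  unfold QQ
  rw [integral_fintype_prod_eq_prod (f := fun (j : Fin (2 * p)) (t : ℝ) =>
    ee (sgn p j * (η * weier α b g (t : UnitAddCircle) + s * t)))]
  have h2 : ∀ j : Fin (2 * p), ∫ t, ee (sgn p j * (η * weier α b g (t : UnitAddCircle) + s * t)) ∂lam =
      if (j : ℕ) < p then Phi α b g η s else (starRingEnd ℂ) (Phi α b g η s) := by
    intro j
    rw [Phi_eq]
    unfold sgn
    split_ifs
    · simp only [one_mul]
    · rw [← integral_conj]
      refine integral_congr_ae (Eventually.of_forall fun t => ?_)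
      simp only
      rw [← ee_neg, neg_one_mul]
  simp_rw [h2]
  rw [Finset.prod_ite, Finset.prod_const, Finset.prod_const]
  have hc1 : (Finset.univ.filter fun j : Fin (2 * p) => (j : ℕ) < p).card = p := by
    rw [Fin.card_filter_val_lt]; omega
  have hc2 : (Finset.univ.filter fun j : Fin (2 * p) => ¬ (j : ℕ) < p).card = p := by
    have := Finset.card_filter_add_card_filter_not (s := (Finset.univ : Finset (Fin (2 * p))))
      (fun j : Fin (2 * p) => (j : ℕ) < p)
    rw [hc1, Finset.card_univ, Fintype.card_fin] at this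
    omega
  rw [hc1, hc2, ← mul_pow, Complex.mul_conj, Complex.normSq_eq_norm_sq]
  push_cast
  rw [← pow_mul]

variable {Λ : ℕ}

theorem norm_inner_le [NeZero b] (hb : 2 ≤ b) (hα : 0 < α) {p n q : ℕ} (g₀ : LipS1) (η s : ℝ)
    (hη : η ≠ 0) (x : Fin (2 * p) → ℝ) (hx : ∀ j, x j ∈ Ico (0:ℝ) 1)
    (hbad : x ∉ BadSet (2 * p) n q q b) (hn : q * q < n)
    (htail : ((2 * p : ℕ) : ℝ) * (rat α b ^ n * (1 - rat α b)⁻¹) ≤
      1 / 2 * (rat α b ^ (q * q) * ((b : ℝ) ^ (2 * q))⁻¹)) :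
    ‖∫ c, ee (η * ell α b (sgn p) x (g₀ + gc b Λ c) + s * ∑ j, sgn p j * x j) ∂(PP b Λ)‖ ≤
      ((|η| * (1 / 2 * (rat α b ^ (q * q) * ((b : ℝ) ^ (4 * q))⁻¹)))⁻¹) ^ Λ := by
  have hb0 := bpos (b := b)
  have hρ := rat_pos (α := α) hb
  obtain ⟨w, hw, hle⟩ := exists_tent hb hα (sgn p) (abs_sgn p) x hx hbad hn htail
  have h1 : ∀ c : Par b Λ, ee (η * ell α b (sgn p) x (g₀ + gc b Λ c) + s * ∑ j, sgn p j * x j) =
      ee (η * ell α b (sgn p) x g₀ + s * ∑ j, sgn p j * x j) *
        ee (∑' i : Idx b Λ, (c i : ℝ) * (η * ell α b (sgn p) x (prf b Λ i))) := by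
    intro c
    rw [← ee_add]
    congr 1
    rw [ell_add hb hα, ell_gc hb hα]
    have : ∑' i : Idx b Λ, (c i : ℝ) * (η * ell α b (sgn p) x (prf b Λ i)) =
        η * ∑' i : Idx b Λ, (c i : ℝ) * ell α b (sgn p) x (prf b Λ i) := by
      rw [← tsum_mul_left]
      refine tsum_congr fun i => ?_
      ring
    rw [this]
    ring
  simp_rw [h1]
  rw [integral_const_mul, norm_mul, norm_ee, one_mul]
  have hs : Summable fun i : Idx b Λ => ‖η * ell α b (sgn p) x (prf b Λ i)‖ := by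
    simp_rw [norm_mul]
    exact (summable_ell hb hα (sgn p) x).mul_left _
  let F : Finset (Idx b Λ) := (Finset.univ : Finset (Fin Λ)).map
    ⟨fun l => (⟨q, ⟨w, hw⟩⟩, l), fun l l' h => congrArg Prod.snd h⟩
  refine (norm_integral_ee_le _ hs F).trans ?_
  rw [Finset.prod_map]
  set v : ℝ := η * ell α b (sgn p) x ((((b : ℝ) ^ (2 * q))⁻¹) • tent b q w) with hv
  have hell : ell α b (sgn p) x ((((b : ℝ) ^ (2 * q))⁻¹) • tent b q w) =
      ((b : ℝ) ^ (2 * q))⁻¹ * ell α b (sgn p) x (tent b q w) := by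
    rw [← ellL_apply hb hα, ← ellL_apply hb hα, map_smul, smul_eq_mul]
  have hlow : |η| * (1 / 2 * (rat α b ^ (q * q) * ((b : ℝ) ^ (4 * q))⁻¹)) ≤ |v| := by
    rw [hv, hell, abs_mul, abs_mul, abs_of_pos (show (0:ℝ) < ((b : ℝ) ^ (2 * q))⁻¹ by positivity)]
    refine mul_le_mul_of_nonneg_left ?_ (abs_nonneg _)
    calc 1 / 2 * (rat α b ^ (q * q) * ((b : ℝ) ^ (4 * q))⁻¹)
        = ((b : ℝ) ^ (2 * q))⁻¹ * (1 / 2 * (rat α b ^ (q * q) * ((b : ℝ) ^ (2 * q))⁻¹)) := by
          have : (b : ℝ) ^ (4 * q) = (b : ℝ) ^ (2 * q) * (b : ℝ) ^ (2 * q) := by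
            rw [← pow_add]; congr 1; ring
          rw [this, mul_inv]
          ring
      _ ≤ _ := mul_le_mul_of_nonneg_left hle (by positivity)
  have hpos : 0 < |η| * (1 / 2 * (rat α b ^ (q * q) * ((b : ℝ) ^ (4 * q))⁻¹)) := by
    have := abs_pos.mpr hη
    positivity
  have hv0 : v ≠ 0 := by
    intro h
    rw [h, abs_zero] at hlow
    linarith
  have hprod : ∀ l : Fin Λ, ‖cf (η * ell α b (sgn p) x (prf b Λ (⟨q, ⟨w, hw⟩⟩, l)))‖ ≤
      (|η| * (1 / 2 * (rat α b ^ (q * q) * ((b : ℝ) ^ (4 * q))⁻¹)))⁻¹ := by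
    intro l
    have : η * ell α b (sgn p) x (prf b Λ (⟨q, ⟨w, hw⟩⟩, l)) = v := rfl
    rw [this]
    exact (norm_cf_le v hv0).trans (inv_anti₀ hpos hlow)
  refine (Finset.prod_le_prod (fun _ _ => norm_nonneg _) fun l _ => hprod l).trans (le_of_eq ?_)
  rw [Finset.prod_const, Finset.card_univ, Fintype.card_fin]

theorem moment_le [NeZero b] (hb : 2 ≤ b) (hα : 0 < α) {p n q : ℕ} (g₀ : LipS1) (η s : ℝ)
    (hη : η ≠ 0) (hq : 0 < q) (hn : q * q < n)
    (htail : ((2 * p : ℕ) : ℝ) * (rat α b ^ n * (1 - rat α b)⁻¹) ≤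
      1 / 2 * (rat α b ^ (q * q) * ((b : ℝ) ^ (2 * q))⁻¹)) :
    ∫ c, ‖Phi α b (g₀ + gc b Λ c) η s‖ ^ (2 * p) ∂(PP b Λ) ≤
      (2 * p * n + b : ℝ) ^ (2 * p * q) * ((b : ℝ) ^ (p * (q * q)))⁻¹ +
      ((|η| * (1 / 2 * (rat α b ^ (q * q) * ((b : ℝ) ^ (4 * q))⁻¹)))⁻¹) ^ Λ := by
  set δ : ℝ := ((|η| * (1 / 2 * (rat α b ^ (q * q) * ((b : ℝ) ^ (4 * q))⁻¹)))⁻¹) ^ Λ with hδ
  have hρ := rat_pos (α := α) hb
  have hb0 := bpos (b := b)
  have hδ0 : 0 ≤ δ := by positivity
  set f : Par b Λ → (Fin (2 * p) → ℝ) → ℂ := fun c x =>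
    ee (η * ell α b (sgn p) x (g₀ + gc b Λ c) + s * ∑ j, sgn p j * x j) with hf
  have hfc : Continuous (Function.uncurry f) := by
    refine continuous_ee.comp ?_
    have h1 : Continuous fun z : Par b Λ × (Fin (2 * p) → ℝ) =>
        ell α b (sgn p) z.2 (g₀ + gc b Λ z.1) := by
      unfold ell
      refine continuous_finsetSum _ fun j _ => continuous_const.mul ?_
      have h2 : Continuous fun z : Par b Λ × (Fin (2 * p) → ℝ) =>
          ((g₀ + gc b Λ z.1, ((z.2 j : ℝ) : UnitAddCircle)) : LipS1 × UnitAddCircle) := by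
        refine Continuous.prodMk ?_ ?_
        · exact continuous_const.add ((continuous_gc hb).comp continuous_fst)
        · exact (AddCircle.continuous_mk' 1).comp ((continuous_apply j).comp continuous_snd)
      exact (continuous_weier hb hα).comp h2
    have h3 : Continuous fun z : Par b Λ × (Fin (2 * p) → ℝ) => ∑ j, sgn p j * z.2 j :=
      continuous_finsetSum _ fun j _ => continuous_const.mul
        ((continuous_apply j).comp continuous_snd)
    exact (continuous_const.mul h1).add (continuous_const.mul h3)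
  have hfi : Integrable (Function.uncurry f) ((PP b Λ).prod (QQ (2 * p))) :=
    Integrable.of_bound hfc.aestronglyMeasurable 1 (Eventually.of_forall fun z => (norm_ee _).le)
  have h1 : ((∫ c, ‖Phi α b (g₀ + gc b Λ c) η s‖ ^ (2 * p) ∂(PP b Λ) : ℝ) : ℂ) =
      ∫ x, ∫ c, f c x ∂(PP b Λ) ∂(QQ (2 * p)) := by
    have h0 : ((∫ c, ‖Phi α b (g₀ + gc b Λ c) η s‖ ^ (2 * p) ∂(PP b Λ) : ℝ) : ℂ) =
        ∫ c, ((‖Phi α b (g₀ + gc b Λ c) η s‖ ^ (2 * p) : ℝ) : ℂ) ∂(PP b Λ) := integral_ofReal.symm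
    rw [← integral_integral_swap hfi, h0]
    refine integral_congr_ae (Eventually.of_forall fun c => ?_)
    exact norm_Phi_pow p _ η s
  have h2 : ∫ c, ‖Phi α b (g₀ + gc b Λ c) η s‖ ^ (2 * p) ∂(PP b Λ) ≤
      ∫ x, ‖∫ c, f c x ∂(PP b Λ)‖ ∂(QQ (2 * p)) := by
    have h3 : 0 ≤ ∫ c, ‖Phi α b (g₀ + gc b Λ c) η s‖ ^ (2 * p) ∂(PP b Λ) :=
      integral_nonneg fun c => by positivity
    calc _ = ‖((∫ c, ‖Phi α b (g₀ + gc b Λ c) η s‖ ^ (2 * p) ∂(PP b Λ) : ℝ) : ℂ)‖ := by
          rw [Complex.norm_real, Real.norm_of_nonneg h3]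
      _ ≤ _ := by rw [h1]; exact norm_integral_le_integral_norm _
  refine h2.trans ?_
  set B := toMeasurable (QQ (2 * p)) (BadSet (2 * p) n q q b) with hB
  have hBm : MeasurableSet B := measurableSet_toMeasurable _ _
  have h4 : ∫ x, ‖∫ c, f c x ∂(PP b Λ)‖ ∂(QQ (2 * p)) ≤
      ∫ x, (B.indicator (fun _ => (1:ℝ)) x + δ) ∂(QQ (2 * p)) := by
    refine integral_mono_of_nonneg (Eventually.of_forall fun x => norm_nonneg _) ?_ ?_
    · exact ((integrable_const _).indicator hBm).add (integrable_const _)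
    · filter_upwards [QQ_ae (2 * p)] with x hx
      by_cases hxB : x ∈ B
      · rw [Set.indicator_of_mem hxB]
        have : ‖∫ c, f c x ∂(PP b Λ)‖ ≤ 1 := by
          refine (norm_integral_le_integral_norm _).trans ?_
          simp [hf, norm_ee]
        linarith
      · rw [Set.indicator_of_notMem hxB, zero_add]
        exact norm_inner_le hb hα g₀ η s hη x hx (fun h => hxB (subset_toMeasurable _ _ h)) hn htail
  refine h4.trans ?_
  rw [integral_add ((integrable_const _).indicator hBm) (integrable_const _),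
    integral_indicator hBm]
  simp only [integral_const, smul_eq_mul, mul_one, probReal_univ, measureReal_restrict_apply,
    MeasurableSet.univ, univ_inter, one_mul]
  refine add_le_add ?_ le_rfl
  have hpos : (0:ℝ) ≤ (2 * p * n + b : ℝ) ^ (2 * p * q) * ((b : ℝ) ^ (p * (q * q)))⁻¹ := by
    positivity
  refine ENNReal.toReal_le_of_le_ofReal hpos ?_
  rw [hB, measure_toMeasurable]
  exact (QQ_le _ _).trans (volume_badSet_le hq hn.le)

end

end Pool.Agent.Lib.MP_2cc37a_an
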