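import Pool.Agent.Lib.MP_2cc37a_an.Weier
import Pool.Agent.Lib.MP_2cc37a_an.AC

/-!
Completeness of `Lip(𝕊¹)` and the random function `g_c = ∑ c_i φ_i`.
-/

namespace Pool.Agent.Lib.MP_2cc37a_an

open MeasureTheory Set Filter Topology

namespace LipS1

theorem norm_le_add (g : LipS1) {A B : ℝ} (hB : 0 ≤ B) (h1 : ∀ x, |g x| ≤ A)
    (h2 : ∀ x y, |g x - g y| ≤ B * dist x y) : ‖g‖ ≤ A + B := by
  rw [norm_def]
  refine add_le_add (ciSup_le h1) (ciSup_le fun p => ?_)
  exact div_le_of_le_mul₀ dist_nonneg hB (h2 p.1 p.2)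

theorem abs_sub_le (g : LipS1) (x y : UnitAddCircle) : |g x - g y| ≤ ‖g‖ * dist x y := by
  have h := div_le_lipConst g x y
  have h2 : lipConst g ≤ ‖g‖ := by
    rw [norm_def]; have := supNorm_nonneg g; linarith
  rcases eq_or_lt_of_le (dist_nonneg (x := x) (y := y)) with h0 | h0
  · rw [eq_comm, dist_eq_zero] at h0
    rw [h0]; simp
  · rw [div_le_iff₀ h0] at h
    exact h.trans (mul_le_mul_of_nonneg_right h2 h0.le)

instance : CompleteSpace LipS1 := by
  refine Metric.complete_of_cauchySeq_tendsto fun u hu => ?_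
  have hc : ∀ x, CauchySeq fun n => u n x := by
    intro x
    rw [Metric.cauchySeq_iff] at hu ⊢
    intro ε hε
    obtain ⟨N, hN⟩ := hu ε hε
    refine ⟨N, fun m hm n hn => lt_of_le_of_lt ?_ (hN m hm n hn)⟩
    rw [dist_eq_norm, dist_eq_norm]
    exact abs_le_norm (u m - u n) x
  choose f hf using fun x => cauchySeq_tendsto_of_complete (hc x)
  have key : ∀ ε > 0, ∃ N, ∀ n ≥ N, (∀ x, |u n x - f x| ≤ ε) ∧
      ∀ x y, |(u n x - f x) - (u n y - f y)| ≤ ε * dist x y := by
    intro ε hε
    rw [Metric.cauchySeq_iff] at hu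
    obtain ⟨N, hN⟩ := hu ε hε
    refine ⟨N, fun n hn => ⟨fun x => ?_, fun x y => ?_⟩⟩
    · have h1 : Tendsto (fun m => |u n x - u m x|) atTop (𝓝 |u n x - f x|) :=
        (tendsto_const_nhds.sub (hf x)).abs
      refine le_of_tendsto h1 ?_
      filter_upwards [eventually_ge_atTop N] with m hm
      have h2 := hN n hn m hm
      rw [dist_eq_norm] at h2
      exact (abs_le_norm (u n - u m) x).trans h2.le
    · have h1 : Tendsto (fun m => |(u n x - u m x) - (u n y - u m y)|) atTop
          (𝓝 |(u n x - f x) - (u n y - f y)|) :=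
        ((tendsto_const_nhds.sub (hf x)).sub (tendsto_const_nhds.sub (hf y))).abs
      refine le_of_tendsto h1 ?_
      filter_upwards [eventually_ge_atTop N] with m hm
      have h2 := hN n hn m hm
      rw [dist_eq_norm] at h2
      exact (abs_sub_le (u n - u m) x y).trans (mul_le_mul_of_nonneg_right h2.le dist_nonneg)
  obtain ⟨N, hN⟩ := key 1 one_pos
  have hlip : ∃ K : NNReal, LipschitzWith K f := by
    obtain ⟨K, hK⟩ := (u N).lip
    refine ⟨K + 1, LipschitzWith.of_dist_le_mul fun x y => ?_⟩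
    have h1 := (hN N le_rfl).2 x y
    have h2 := hK.dist_le_mul x y
    rw [Real.dist_eq] at h2 ⊢
    push_cast
    have h3 : f x - f y = (u N x - u N y) - ((u N x - f x) - (u N y - f y)) := by ring
    rw [h3]
    refine (abs_sub _ _).trans ?_
    linarith
  refine ⟨⟨f, hlip⟩, ?_⟩
  rw [Metric.tendsto_atTop]
  intro ε hε
  obtain ⟨N', hN'⟩ := key (ε / 3) (by positivity)
  refine ⟨N', fun n hn => ?_⟩
  rw [dist_eq_norm]
  have h1 := norm_le_add (u n - ⟨f, hlip⟩) (A := ε / 3) (B := ε / 3) (by positivity)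
    (fun x => (hN' n hn).1 x) (fun x y => (hN' n hn).2 x y)
  linarith

end LipS1

section

variable (b Λ : ℕ)

/-- Indices of the probe functions: a depth `q`, a cell of depth `q`, and a copy number. -/
abbrev Idx := (Σ q : ℕ, Fin (b ^ q)) × Fin Λ

/-- The parameter space of the probe. -/
abbrev Par := Idx b Λ → unitInterval

/-- The probe functions. -/
noncomputable def prf (i : Idx b Λ) : LipS1 := (((b : ℝ) ^ (2 * i.1.1))⁻¹) • tent b i.1.1 i.1.2

/-- The random function `g_c`. -/
noncomputable def gc (c : Par b Λ) : LipS1 := ∑' i : Idx b Λ, (c i : ℝ) • prf b Λ i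

/-- The distribution of the parameters. -/
noncomputable def PP : Measure (Par b Λ) := Measure.infinitePi fun _ => volume

instance : IsProbabilityMeasure (PP b Λ) := by unfold PP; infer_instance

variable {b Λ}

theorem norm_prf_le [NeZero b] (i : Idx b Λ) : ‖prf b Λ i‖ ≤ ((b : ℝ) ^ (2 * i.1.1))⁻¹ * 2 := by
  unfold prf
  rw [norm_smul, Real.norm_of_nonneg (by positivity)]
  exact mul_le_mul_of_nonneg_left (norm_tent_le _ _) (by positivity)

theorem summable_prf [NeZero b] (hb : 2 ≤ b) :
    Summable fun i : Idx b Λ => ((b : ℝ) ^ (2 * i.1.1))⁻¹ * 2 := by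
  have hb1 : (1:ℝ) < b := by exact_mod_cast (by omega : 1 < b)
  have h1 : Summable fun s : (Σ q : ℕ, Fin (b ^ q)) => ((b : ℝ) ^ (2 * s.1))⁻¹ * 2 := by
    rw [summable_sigma_of_nonneg (fun s => by positivity)]
    refine ⟨fun q => Summable.of_finite, ?_⟩
    have h2 : ∀ q : ℕ, ∑' _ : Fin (b ^ q), ((b : ℝ) ^ (2 * q))⁻¹ * 2 = ((b : ℝ)⁻¹) ^ q * 2 := by
      intro q
      rw [tsum_fintype, Finset.sum_const, Finset.card_univ, Fintype.card_fin, nsmul_eq_mul]
      push_cast
      rw [two_mul, pow_add, inv_pow]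
      field_simp
    simp only [h2]
    exact (summable_geometric_of_lt_one (by positivity) (inv_lt_one_of_one_lt₀ hb1)).mul_right 2
  have h3 : Summable fun i : Idx b Λ => (((b : ℝ) ^ (2 * i.1.1))⁻¹ * 2) * (1:ℝ) :=
    Summable.mul_of_nonneg (f := fun s : (Σ q : ℕ, Fin (b ^ q)) => ((b : ℝ) ^ (2 * s.1))⁻¹ * 2)
      (g := fun _ : Fin Λ => (1:ℝ)) h1 Summable.of_finite (fun s => by positivity)
      (fun _ => zero_le_one)
  simpa using h3

theorem norm_term_le [NeZero b] (c : Par b Λ) (i : Idx b Λ) :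
    ‖(c i : ℝ) • prf b Λ i‖ ≤ ((b : ℝ) ^ (2 * i.1.1))⁻¹ * 2 := by
  rw [norm_smul, Real.norm_of_nonneg (c i).2.1]
  exact (mul_le_of_le_one_left (norm_nonneg _) (c i).2.2).trans (norm_prf_le i)

theorem summable_gc [NeZero b] (hb : 2 ≤ b) (c : Par b Λ) :
    Summable fun i : Idx b Λ => (c i : ℝ) • prf b Λ i :=
  Summable.of_norm_bounded (summable_prf hb) (norm_term_le c)

theorem continuous_gc [NeZero b] (hb : 2 ≤ b) : Continuous (gc b Λ) := by
  unfold gc
  refine continuous_tsum (fun i => ?_) (summable_prf hb) (fun i c => norm_term_le c i)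
  have h : Continuous fun c : Par b Λ => ((c i : unitInterval) : ℝ) :=
    continuous_subtype_val.comp (continuous_apply i)
  exact h.smul continuous_const

/-- `ell` as a continuous linear functional. -/
noncomputable def ellL {α : ℝ} (hb : 2 ≤ b) (hα : 0 < α) {m : ℕ} (ε x : Fin m → ℝ) :
    LipS1 →L[ℝ] ℝ :=
  ∑ j, ε j • (ContinuousMap.evalCLM ℝ (x j : UnitAddCircle)).comp (weierC hb hα)

theorem ellL_apply {α : ℝ} (hb : 2 ≤ b) (hα : 0 < α) {m : ℕ} (ε x : Fin m → ℝ) (g : LipS1) :
    ellL hb hα ε x g = ell α b ε x g := by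
  unfold ellL ell
  rw [sum_apply]
  rfl

theorem ell_add {α : ℝ} (hb : 2 ≤ b) (hα : 0 < α) {m : ℕ} (ε x : Fin m → ℝ) (f g : LipS1) :
    ell α b ε x (f + g) = ell α b ε x f + ell α b ε x g := by
  rw [← ellL_apply hb hα, ← ellL_apply hb hα, ← ellL_apply hb hα, map_add]

theorem ell_gc [NeZero b] {α : ℝ} (hb : 2 ≤ b) (hα : 0 < α) {m : ℕ} (ε x : Fin m → ℝ)
    (c : Par b Λ) :
    ell α b ε x (gc b Λ c) = ∑' i : Idx b Λ, (c i : ℝ) * ell α b ε x (prf b Λ i) := by
  rw [← ellL_apply hb hα, gc, (ellL hb hα ε x).map_tsum (summable_gc hb c)]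
  refine tsum_congr fun i => ?_
  rw [map_smul, smul_eq_mul, ellL_apply]

theorem summable_ell [NeZero b] {α : ℝ} (hb : 2 ≤ b) (hα : 0 < α) {m : ℕ} (ε x : Fin m → ℝ) :
    Summable fun i : Idx b Λ => ‖ell α b ε x (prf b Λ i)‖ := by
  refine Summable.of_nonneg_of_le (fun _ => norm_nonneg _) (fun i => ?_)
    ((summable_prf (Λ := Λ) hb).mul_left ‖ellL hb hα ε x‖)
  rw [← ellL_apply hb hα]
  exact ((ellL hb hα ε x).le_opNorm _).trans
    (mul_le_mul_of_nonneg_left (norm_prf_le i) (norm_nonneg _))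

end

section CharFun

/-- Characteristic function of a uniform variable. -/
noncomputable def cf (v : ℝ) : ℂ := ∫ t : unitInterval, ee ((t : ℝ) * v)

theorem norm_cf_le_one (v : ℝ) : ‖cf v‖ ≤ 1 := by
  unfold cf
  refine (norm_integral_le_integral_norm _).trans ?_
  simp [norm_ee]

theorem norm_cf_le (v : ℝ) (hv : v ≠ 0) : ‖cf v‖ ≤ |v|⁻¹ := by
  unfold cf
  have h1 : ∫ t : unitInterval, ee ((t : ℝ) * v) = ∫ t in (0:ℝ)..1, ee (t * v) := by
    rw [intervalIntegral.integral_of_le zero_le_one, ← integral_Icc_eq_integral_Ioc]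
    exact integral_subtype measurableSet_Icc fun t => ee (t * v)
  have h2 : ∀ t : ℝ, ee (t * v) = Complex.exp ((2 * Real.pi * v * Complex.I) * t) := by
    intro t
    unfold ee
    congr 1
    push_cast
    ring
  rw [h1]
  simp_rw [h2]
  have hc : (2 * Real.pi * v * Complex.I : ℂ) ≠ 0 := by
    have : (Real.pi : ℂ) ≠ 0 := by exact_mod_cast Real.pi_ne_zero
    have hv' : (v : ℂ) ≠ 0 := by exact_mod_cast hv
    simp [this, hv']
  rw [integral_exp_mul_complex hc, norm_div]
  have h3 : ‖(2 * Real.pi * v * Complex.I : ℂ)‖ = 2 * Real.pi * |v| := by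
    simp [abs_of_pos Real.pi_pos]
  rw [h3]
  have h4 : ‖Complex.exp (2 * Real.pi * v * Complex.I * (1:ℝ)) -
      Complex.exp (2 * Real.pi * v * Complex.I * (0:ℝ))‖ ≤ 2 := by
    refine (norm_sub_le _ _).trans ?_
    have e1 := h2 1
    have e0 := h2 0
    rw [← e1, ← e0, norm_ee, norm_ee]
    norm_num
  have hv' : 0 < |v| := abs_pos.mpr hv
  calc _ ≤ 2 / (2 * Real.pi * |v|) := div_le_div_of_nonneg_right h4 (by positivity)
    _ ≤ |v|⁻¹ := by
      rw [div_le_iff₀ (by positivity)]
      have : |v|⁻¹ * (2 * Real.pi * |v|) = 2 * Real.pi := by field_simp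
      rw [this]
      have := Real.pi_gt_three
      linarith

variable {ι : Type*} [Countable ι]

theorem norm_integral_ee_le (v : ι → ℝ) (hv : Summable fun i => ‖v i‖) (F : Finset ι) :
    ‖∫ c : ι → unitInterval, ee (∑' i, (c i : ℝ) * v i) ∂(Measure.infinitePi fun _ => volume)‖ ≤
      ∏ i ∈ F, ‖cf (v i)‖ := by
  classical
  set P : Measure (ι → unitInterval) := Measure.infinitePi fun _ => volume with hP
  have hsum : ∀ c : ι → unitInterval, Summable fun i => (c i : ℝ) * v i := by
    intro c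
    refine Summable.of_norm_bounded hv fun i => ?_
    rw [norm_mul, Real.norm_of_nonneg (c i).2.1]
    exact mul_le_of_le_one_left (norm_nonneg _) (c i).2.2
  have hfin : ∀ s : Finset ι, ∫ c, ee (∑ i ∈ s, (c i : ℝ) * v i) ∂P = ∏ i ∈ s, cf (v i) := by
    intro s
    have h1 : ∀ c : ι → unitInterval, ee (∑ i ∈ s, (c i : ℝ) * v i) =
        (fun y : s → unitInterval => ∏ i : s, ee ((y i : ℝ) * v i)) (s.restrict c) := by
      intro c
      simp only [Finset.restrict]
      rw [Finset.prod_coe_sort s fun i => ee ((c i : ℝ) * v i)]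
      induction s using Finset.induction_on with
      | empty => simp [ee_zero]
      | insert a s ha ih => rw [Finset.sum_insert ha, Finset.prod_insert ha, ee_add, ih]
    have hc : Continuous fun y : s → unitInterval => ∏ i : s, ee ((y i : ℝ) * v i) :=
      continuous_finsetProd _ fun i _ => continuous_ee.comp
        ((continuous_subtype_val.comp (continuous_apply i)).mul continuous_const)
    have h2 := integral_restrict_infinitePi (μ := fun _ : ι => (volume : Measure unitInterval))
      (s := s) (f := fun y : s → unitInterval => ∏ i : s, ee ((y i : ℝ) * v i))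
      hc.aestronglyMeasurable
    rw [hP, integral_congr_ae (Eventually.of_forall h1), h2,
      integral_fintype_prod_eq_prod (f := fun (i : s) (t : unitInterval) => ee ((t : ℝ) * v i)),
      ← Finset.prod_coe_sort s fun i => cf (v i)]
    rfl
  have hlim : Tendsto (fun s : Finset ι => ∫ c, ee (∑ i ∈ s, (c i : ℝ) * v i) ∂P) atTop
      (𝓝 (∫ c, ee (∑' i, (c i : ℝ) * v i) ∂P)) := by
    refine tendsto_integral_filter_of_dominated_convergence (fun _ => 1) ?_ ?_ ?_ ?_
    · refine Eventually.of_forall fun s => ?_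
      have hc : Continuous fun c : ι → unitInterval => ee (∑ i ∈ s, (c i : ℝ) * v i) :=
        continuous_ee.comp (continuous_finsetSum _ fun i _ =>
          (continuous_subtype_val.comp (continuous_apply i)).mul continuous_const)
      exact hc.aestronglyMeasurable
    · exact Eventually.of_forall fun s => Eventually.of_forall fun c => (norm_ee _).le
    · exact integrable_const _
    · refine Eventually.of_forall fun c => ?_
      exact (continuous_ee.tendsto _).comp (hsum c).hasSum
  refine le_of_tendsto hlim.norm ?_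
  filter_upwards [eventually_ge_atTop F] with s hs
  rw [hfin s, norm_prod]
  exact Finset.prod_le_prod_of_subset_of_le_one hs (fun _ _ => norm_nonneg _)
    (fun i _ _ => norm_cf_le_one _)

end CharFun

end Pool.Agent.Lib.MP_2cc37a_an
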