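import Pool.Agent.Lib.MP_2cc37a_an.Words

/-!
Basic properties of Weierstrass functions, and values at tents.
-/

namespace Pool.Agent.Lib.MP_2cc37a_an

open MeasureTheory Set

section

variable {α : ℝ} {b : ℕ}

/-- The ratio `b^(-α)`. -/
noncomputable def rat (α : ℝ) (b : ℕ) : ℝ := (b : ℝ) ^ (-α)

theorem rat_pos (hb : 2 ≤ b) : 0 < rat α b := by
  have : (0:ℝ) < b := by exact_mod_cast (by omega : 0 < b)
  exact Real.rpow_pos_of_pos this _

theorem rat_lt_one (hb : 2 ≤ b) (hα : 0 < α) : rat α b < 1 := by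
  have : (1:ℝ) < b := by exact_mod_cast (by omega : 1 < b)
  exact Real.rpow_lt_one_of_one_lt_of_neg this (by linarith)

theorem weier_eq (g : LipS1) (x : UnitAddCircle) :
    weier α b g x = ∑' k : ℕ, rat α b ^ k * g (b ^ k • x) := by
  unfold weier rat
  refine tsum_congr fun k => ?_
  rw [← Real.rpow_natCast, ← Real.rpow_mul (Nat.cast_nonneg b)]
  congr 2
  ring

theorem summable_bound (hb : 2 ≤ b) (hα : 0 < α) (C : ℝ) :
    Summable fun k : ℕ => rat α b ^ k * C :=
  (summable_geometric_of_lt_one (rat_pos hb).le (rat_lt_one hb hα)).mul_right C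

theorem term_le (hb : 2 ≤ b) (g : LipS1) (x : UnitAddCircle) (k : ℕ) :
    ‖rat α b ^ k * g (b ^ k • x)‖ ≤ rat α b ^ k * ‖g‖ := by
  have h := (rat_pos (α := α) hb).le
  rw [norm_mul, Real.norm_of_nonneg (pow_nonneg h k)]
  exact mul_le_mul_of_nonneg_left (LipS1.abs_le_norm g _) (pow_nonneg h k)

theorem summable_term (hb : 2 ≤ b) (hα : 0 < α) (g : LipS1) (x : UnitAddCircle) :
    Summable fun k : ℕ => rat α b ^ k * g (b ^ k • x) :=
  Summable.of_norm_bounded (summable_bound hb hα ‖g‖) (term_le hb g x)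

theorem continuous_weier_right (hb : 2 ≤ b) (hα : 0 < α) (g : LipS1) :
    Continuous (weier α b g) := by
  have : weier α b g = fun x => ∑' k : ℕ, rat α b ^ k * g (b ^ k • x) := by
    funext x; exact weier_eq g x
  rw [this]
  refine continuous_tsum (fun k => ?_) (summable_bound hb hα ‖g‖) (fun k x => term_le hb g x k)
  obtain ⟨K, hK⟩ := g.lip
  exact continuous_const.mul (hK.continuous.comp (continuous_nsmul _))

theorem abs_weier_le (hb : 2 ≤ b) (hα : 0 < α) (g : LipS1) (x : UnitAddCircle) :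
    |weier α b g x| ≤ (1 - rat α b)⁻¹ * ‖g‖ := by
  rw [weier_eq, ← Real.norm_eq_abs]
  refine (tsum_of_norm_bounded (summable_bound hb hα ‖g‖).hasSum (term_le hb g x)).trans
    (le_of_eq ?_)
  rw [tsum_mul_right, tsum_geometric_of_lt_one (rat_pos hb).le (rat_lt_one hb hα)]

/-- `g ↦ W_g` as a continuous linear map to continuous functions. -/
noncomputable def weierC (hb : 2 ≤ b) (hα : 0 < α) : LipS1 →L[ℝ] C(UnitAddCircle, ℝ) :=
  LinearMap.mkContinuous
    { toFun := fun g => ⟨weier α b g, continuous_weier_right hb hα g⟩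
      map_add' := fun f g => by
        ext x
        simp only [ContinuousMap.coe_mk, ContinuousMap.add_apply, weier_eq]
        rw [← (summable_term hb hα f x).tsum_add (summable_term hb hα g x)]
        refine tsum_congr fun k => ?_
        rw [LipS1.coe_add, Pi.add_apply, mul_add]
      map_smul' := fun c g => by
        ext x
        simp only [ContinuousMap.coe_mk, ContinuousMap.smul_apply, weier_eq, smul_eq_mul,
          RingHom.id_apply]
        rw [← tsum_mul_left]
        refine tsum_congr fun k => ?_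
        rw [LipS1.coe_smul, Pi.smul_apply, smul_eq_mul]
        ring }
    (1 - rat α b)⁻¹ (fun g => by
      rw [ContinuousMap.norm_le _ (by
        have := rat_lt_one hb hα
        have : 0 < 1 - rat α b := by linarith
        positivity)]
      intro x
      exact abs_weier_le hb hα g x)

theorem weierC_apply (hb : 2 ≤ b) (hα : 0 < α) (g : LipS1) (x : UnitAddCircle) :
    weierC hb hα g x = weier α b g x := rfl

theorem continuous_weier (hb : 2 ≤ b) (hα : 0 < α) :
    Continuous fun p : LipS1 × UnitAddCircle => weier α b p.1 p.2 := by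
  have h : (fun p : LipS1 × UnitAddCircle => weier α b p.1 p.2) =
      fun p => (weierC hb hα p.1) p.2 := rfl
  rw [h]
  exact ((weierC hb hα).continuous.comp continuous_fst).eval continuous_snd

/-- Signed sums of values of `W_g`. -/
noncomputable def ell (α : ℝ) (b : ℕ) {m : ℕ} (ε : Fin m → ℝ) (x : Fin m → ℝ) (g : LipS1) : ℝ :=
  ∑ j, ε j * weier α b g (x j : UnitAddCircle)

theorem smul_coe (x : ℝ) (k : ℕ) : b ^ k • (x : UnitAddCircle) =
    ((Int.fract ((b : ℝ) ^ k * x) : ℝ) : UnitAddCircle) := by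
  have h1 : ((Int.fract ((b : ℝ) ^ k * x) : ℝ) : UnitAddCircle) =
      (((b : ℝ) ^ k * x : ℝ) : UnitAddCircle) := by
    rw [← Int.self_sub_floor, AddCircle.coe_sub]
    have : ((⌊(b : ℝ) ^ k * x⌋ : ℝ) : UnitAddCircle) = 0 := by
      have := AddCircle.coe_eq_zero_iff (p := (1:ℝ)) (x := (⌊(b : ℝ) ^ k * x⌋ : ℝ))
      rw [this]
      exact ⟨⌊(b : ℝ) ^ k * x⌋, by simp⟩
    rw [this, sub_zero]
  rw [h1, ← AddCircle.coe_nsmul, nsmul_eq_mul]
  push_cast
  rfl

theorem exists_tent [NeZero b] (hb : 2 ≤ b) (hα : 0 < α) {m n q : ℕ} (ε : Fin m → ℝ)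
    (hε : ∀ j, |ε j| = 1) (x : Fin m → ℝ) (hx : ∀ j, x j ∈ Ico (0:ℝ) 1)
    (hbad : x ∉ BadSet m n q q b) (hn : q * q < n)
    (htail : m * (rat α b ^ n * (1 - rat α b)⁻¹) ≤ 1 / 2 * (rat α b ^ (q * q) * ((b : ℝ) ^ (2 * q))⁻¹)) :
    ∃ w < b ^ q, 1 / 2 * (rat α b ^ (q * q) * ((b : ℝ) ^ (2 * q))⁻¹) ≤
      |ell α b ε x (tent b q w)| := by
  have hb0 := bpos (b := b)
  have hρ := rat_pos (α := α) hb
  have hρ1 := rat_lt_one hb hα
  have h1 : ¬ BadD m n q q b (fun j i => dig b (x j) i) := fun h => hbad ⟨hx, h⟩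
  unfold BadD at h1
  push Not at h1
  obtain ⟨j, l, hl, htwin, hconst⟩ := h1
  set k := l * q with hk
  set w := wd b q (x j) k with hw
  have hwlt : w < b ^ q := wd_lt q _ _
  have hkq : k ≤ q * q := Nat.mul_le_mul_right q hl.le
  refine ⟨w, hwlt, ?_⟩
  have hother : ∀ j' k', k' < n → (j', k') ≠ (j, k) → wd b q (x j') k' ≠ w := by
    intro j' k' hk' hne heq
    obtain ⟨i, hi, hne'⟩ := htwin j' k' hk' hne
    exact hne' (dig_eq_of_wd (hx j').1 (hx j).1 heq i hi)
  set y := Int.fract ((b : ℝ) ^ k * x j) with hy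
  have hc1 : ((b : ℝ) ^ q)⁻¹ ≤ (b : ℝ) ^ q * y - w := by
    by_contra hlt
    rw [not_le] at hlt
    obtain ⟨i, hi, hne⟩ := hconst ⟨0, by omega⟩
    apply hne
    apply Fin.ext
    have := dig_zero_of_close (hx j).1 hlt i hi
    have h5 : k + q + i = (l + 1) * q + i := by rw [hk]; ring
    rw [h5] at this
    exact this
  have hc2 : ((b : ℝ) ^ q)⁻¹ ≤ w + 1 - (b : ℝ) ^ q * y := by
    by_contra hlt
    rw [not_le] at hlt
    obtain ⟨i, hi, hne⟩ := hconst ⟨b - 1, by omega⟩
    apply hne
    apply Fin.ext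
    have := dig_last_of_close (hx j).1 hlt i hi
    have h5 : k + q + i = (l + 1) * q + i := by rw [hk]; ring
    rw [h5] at this
    exact this
  have htent : ((b : ℝ) ^ (2 * q))⁻¹ ≤ tent b q w (y : UnitAddCircle) := by
    refine le_trans (le_of_eq ?_) (le_tent hc1 hc2)
    rw [two_mul, pow_add]
    field_simp
  -- main term and tail
  have hsplit : ∀ j', weier α b (tent b q w) (x j' : UnitAddCircle) =
      (if j' = j then rat α b ^ k * tent b q w (y : UnitAddCircle) else 0) +
      ∑' i : ℕ, rat α b ^ (i + n) * tent b q w (b ^ (i + n) • (x j' : UnitAddCircle)) := by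
    intro j'
    rw [weier_eq, ← (summable_term hb hα _ _).sum_add_tsum_nat_add n]
    congr 1
    have hz : ∀ k' ∈ Finset.range n, (j', k') ≠ (j, k) →
        rat α b ^ k' * tent b q w (b ^ k' • (x j' : UnitAddCircle)) = 0 := by
      intro k' hk' hne
      rw [smul_coe, tent_zero hwlt ⟨Int.fract_nonneg _, Int.fract_lt_one _⟩
        (hother j' k' (Finset.mem_range.mp hk') hne), mul_zero]
    by_cases hj : j' = j
    · rw [if_pos hj, Finset.sum_eq_single k]
      · rw [smul_coe, hj]
      · intro k' hk' hne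
        refine hz k' hk' ?_
        intro h
        exact hne (congrArg Prod.snd h)
      · intro h
        exact absurd (Finset.mem_range.mpr (by omega)) h
    · rw [if_neg hj]
      refine Finset.sum_eq_zero fun k' hk' => hz k' hk' ?_
      intro h
      exact hj (congrArg Prod.fst h)
  have htl : ∀ j', |∑' i : ℕ, rat α b ^ (i + n) * tent b q w (b ^ (i + n) • (x j' : UnitAddCircle))| ≤
      rat α b ^ n * (1 - rat α b)⁻¹ := by
    intro j'
    rw [← Real.norm_eq_abs]
    have hs : HasSum (fun i : ℕ => rat α b ^ n * rat α b ^ i) (rat α b ^ n * (1 - rat α b)⁻¹) :=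
      (hasSum_geometric_of_lt_one hρ.le hρ1).mul_left _
    refine tsum_of_norm_bounded hs fun i => ?_
    rw [norm_mul, Real.norm_of_nonneg (pow_nonneg hρ.le _), Real.norm_of_nonneg (tent_nonneg _ _ _ _),
      pow_add, mul_comm (rat α b ^ i)]
    exact mul_le_of_le_one_right (by positivity) (tent_le q w _)
  have hell : ell α b ε x (tent b q w) = ε j * (rat α b ^ k * tent b q w (y : UnitAddCircle)) +
      ∑ j', ε j' * ∑' i : ℕ, rat α b ^ (i + n) * tent b q w (b ^ (i + n) • (x j' : UnitAddCircle)) := by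
    unfold ell
    simp_rw [hsplit, mul_add, Finset.sum_add_distrib]
    congr 1
    simp
  have htot : |∑ j', ε j' * ∑' i : ℕ, rat α b ^ (i + n) *
      tent b q w (b ^ (i + n) • (x j' : UnitAddCircle))| ≤ m * (rat α b ^ n * (1 - rat α b)⁻¹) := by
    refine (Finset.abs_sum_le_sum_abs _ _).trans ?_
    refine (Finset.sum_le_card_nsmul _ _ (rat α b ^ n * (1 - rat α b)⁻¹) fun j' _ => ?_).trans
      (le_of_eq ?_)
    · rw [abs_mul, hε, one_mul]
      exact htl j'
    · rw [Finset.card_univ, Fintype.card_fin, nsmul_eq_mul]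
  have hmain : rat α b ^ (q * q) * ((b : ℝ) ^ (2 * q))⁻¹ ≤
      |ε j * (rat α b ^ k * tent b q w (y : UnitAddCircle))| := by
    rw [abs_mul, hε, one_mul, abs_of_nonneg (mul_nonneg (pow_nonneg hρ.le _) (tent_nonneg _ _ _ _))]
    refine mul_le_mul ?_ htent (by positivity) (pow_nonneg hρ.le _)
    exact pow_le_pow_of_le_one hρ.le hρ1.le hkq
  rw [hell]
  have h3 := abs_sub_abs_le_abs_sub (ε j * (rat α b ^ k * tent b q w (y : UnitAddCircle)))
    (-∑ j', ε j' * ∑' i : ℕ, rat α b ^ (i + n) * tent b q w (b ^ (i + n) • (x j' : UnitAddCircle)))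
  rw [abs_neg, sub_neg_eq_add] at h3
  linarith

end

end Pool.Agent.Lib.MP_2cc37a_an
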