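import Pool.Agent.Lib.MP_2cc37a_an.Digits
import Pool.Agent.Lib.MP_2cc37a_an.Defs

/-!
Cells, tent functions, and the values of Weierstrass functions of tents.
-/

namespace Pool.Agent.Lib.MP_2cc37a_an

open MeasureTheory Set

section

variable {b : ℕ} [NeZero b]

/-- The index of the cell of depth `q` containing `b^k x`. -/
noncomputable def wd (b q : ℕ) (x : ℝ) (k : ℕ) : ℕ := ⌊(b : ℝ) ^ q * Int.fract ((b : ℝ) ^ k * x)⌋₊

theorem floor_mod {x : ℝ} (hx : 0 ≤ x) (k i : ℕ) :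
    ⌊(b : ℝ) ^ (k + i + 1) * x⌋₊ % b = ⌊(b : ℝ) ^ (i + 1) * Int.fract ((b : ℝ) ^ k * x)⌋₊ % b := by
  have hb := bpos (b := b)
  have h0 : 0 ≤ (b : ℝ) ^ k * x := by positivity
  have h1 : (b : ℝ) ^ (k + i + 1) * x =
      (b : ℝ) ^ (i + 1) * Int.fract ((b : ℝ) ^ k * x) + ((b ^ (i + 1) * ⌊(b : ℝ) ^ k * x⌋₊ : ℕ) : ℝ) := by
    have h2 := Int.floor_add_fract ((b : ℝ) ^ k * x)
    have h3 : ((⌊(b : ℝ) ^ k * x⌋₊ : ℕ) : ℝ) = (⌊(b : ℝ) ^ k * x⌋ : ℝ) := by
      rw [← natCast_floor_eq_intCast_floor h0]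
    push_cast
    rw [h3]
    calc (b : ℝ) ^ (k + i + 1) * x = (b : ℝ) ^ (i + 1) * ((b : ℝ) ^ k * x) := by ring
      _ = (b : ℝ) ^ (i + 1) * ((⌊(b : ℝ) ^ k * x⌋ : ℝ) + Int.fract ((b : ℝ) ^ k * x)) := by rw [h2]
      _ = _ := by ring
  rw [h1, Nat.floor_add_natCast (by have := Int.fract_nonneg ((b : ℝ) ^ k * x); positivity),
    pow_succ b i, mul_comm (b ^ i) b, mul_assoc, Nat.add_mul_mod_self_left]

theorem dig_eq {x : ℝ} (hx : 0 ≤ x) (k i : ℕ) :
    (dig b x (k + i) : ℕ) = ⌊(b : ℝ) ^ (i + 1) * Int.fract ((b : ℝ) ^ k * x)⌋₊ % b :=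
  floor_mod hx k i

theorem floor_div_pow (y : ℝ) {i q : ℕ} (hi : i < q) :
    ⌊(b : ℝ) ^ (i + 1) * y⌋₊ = ⌊(b : ℝ) ^ q * y⌋₊ / b ^ (q - 1 - i) := by
  rw [← Nat.floor_div_natCast]
  congr 1
  have hb := (bpos (b := b)).ne'
  have h1 : q = (i + 1) + (q - 1 - i) := by omega
  push_cast
  conv_rhs => rw [h1, pow_add]
  rw [← h1]
  field_simp

theorem dig_eq_of_wd {x x' : ℝ} (hx : 0 ≤ x) (hx' : 0 ≤ x') {k k' q : ℕ}
    (h : wd b q x k = wd b q x' k') (i : ℕ) (hi : i < q) :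
    dig b x (k + i) = dig b x' (k' + i) := by
  apply Fin.ext
  rw [dig_eq hx, dig_eq hx', floor_div_pow _ hi, floor_div_pow _ hi]
  unfold wd at h
  rw [h]

theorem fract_next {x : ℝ} (q k : ℕ) :
    Int.fract ((b : ℝ) ^ (k + q) * x) =
      (b : ℝ) ^ q * Int.fract ((b : ℝ) ^ k * x) - wd b q x k := by
  have hb := bpos (b := b)
  have h2 := Int.floor_add_fract ((b : ℝ) ^ k * x)
  have h1 : (b : ℝ) ^ (k + q) * x = ((b ^ q * ⌊(b : ℝ) ^ k * x⌋ : ℤ) : ℝ) +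
      (b : ℝ) ^ q * Int.fract ((b : ℝ) ^ k * x) := by
    push_cast
    calc (b : ℝ) ^ (k + q) * x = (b : ℝ) ^ q * ((b : ℝ) ^ k * x) := by ring
      _ = (b : ℝ) ^ q * ((⌊(b : ℝ) ^ k * x⌋ : ℝ) + Int.fract ((b : ℝ) ^ k * x)) := by rw [h2]
      _ = _ := by ring
  have h0 : 0 ≤ (b : ℝ) ^ q * Int.fract ((b : ℝ) ^ k * x) := by
    have := Int.fract_nonneg ((b : ℝ) ^ k * x); positivity
  rw [h1, Int.fract_intCast_add, ← Int.self_sub_floor]
  congr 1
  unfold wd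
  rw [← natCast_floor_eq_intCast_floor h0]

theorem dig_zero_of_close {x : ℝ} (hx : 0 ≤ x) {q k : ℕ}
    (h : (b : ℝ) ^ q * Int.fract ((b : ℝ) ^ k * x) - wd b q x k < ((b : ℝ) ^ q)⁻¹)
    (i : ℕ) (hi : i < q) : (dig b x (k + q + i) : ℕ) = 0 := by
  have hb := bpos (b := b)
  have hb1 := bone (b := b)
  rw [dig_eq hx, fract_next]
  have h1 : ⌊(b : ℝ) ^ (i + 1) * ((b : ℝ) ^ q * Int.fract ((b : ℝ) ^ k * x) - wd b q x k)⌋₊ = 0 := by
    rw [Nat.floor_eq_zero]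
    calc (b : ℝ) ^ (i + 1) * ((b : ℝ) ^ q * Int.fract ((b : ℝ) ^ k * x) - wd b q x k)
        < (b : ℝ) ^ (i + 1) * ((b : ℝ) ^ q)⁻¹ := by
          exact mul_lt_mul_of_pos_left h (by positivity)
      _ ≤ (b : ℝ) ^ q * ((b : ℝ) ^ q)⁻¹ := by
          refine mul_le_mul_of_nonneg_right ?_ (by positivity)
          exact pow_le_pow_right₀ hb1 hi
      _ = 1 := mul_inv_cancel₀ (by positivity)
  rw [h1, Nat.zero_mod]

theorem dig_last_of_close {x : ℝ} (hx : 0 ≤ x) {q k : ℕ}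
    (h : (wd b q x k : ℝ) + 1 - (b : ℝ) ^ q * Int.fract ((b : ℝ) ^ k * x) < ((b : ℝ) ^ q)⁻¹)
    (i : ℕ) (hi : i < q) : (dig b x (k + q + i) : ℕ) = b - 1 := by
  have hb := bpos (b := b)
  have hb1 := bone (b := b)
  have hbn : 0 < b := Nat.pos_of_ne_zero (NeZero.ne b)
  rw [dig_eq hx]
  set f := Int.fract ((b : ℝ) ^ (k + q) * x) with hf
  have hf1 : f = (b : ℝ) ^ q * Int.fract ((b : ℝ) ^ k * x) - wd b q x k := fract_next q k
  have hf2 : f < 1 := Int.fract_lt_one _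
  have h1 : ⌊(b : ℝ) ^ (i + 1) * f⌋₊ = b ^ (i + 1) - 1 := by
    have hpos : 1 ≤ b ^ (i + 1) := Nat.one_le_pow _ _ hbn
    rw [Nat.floor_eq_iff (by have : 0 ≤ f := Int.fract_nonneg _; positivity)]
    rw [Nat.cast_sub hpos]
    push_cast
    constructor
    · have h2 : (b : ℝ) ^ (i + 1) * (1 - f) ≤ 1 := by
        calc (b : ℝ) ^ (i + 1) * (1 - f) ≤ (b : ℝ) ^ (i + 1) * ((b : ℝ) ^ q)⁻¹ := by
              refine mul_le_mul_of_nonneg_left ?_ (by positivity)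
              rw [hf1]; linarith
          _ ≤ (b : ℝ) ^ q * ((b : ℝ) ^ q)⁻¹ := by
              refine mul_le_mul_of_nonneg_right ?_ (by positivity)
              exact pow_le_pow_right₀ hb1 hi
          _ = 1 := mul_inv_cancel₀ (by positivity)
      linarith
    · have : (b : ℝ) ^ (i + 1) * f < (b : ℝ) ^ (i + 1) * 1 :=
        mul_lt_mul_of_pos_left hf2 (by positivity)
      linarith
  rw [h1]
  have h2 : b ^ (i + 1) - 1 = (b - 1) + b * (b ^ i - 1) := by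
    have h3 : 1 ≤ b ^ i := Nat.one_le_pow _ _ hbn
    obtain ⟨c, hc⟩ := Nat.exists_eq_add_of_le h3
    obtain ⟨d, hd⟩ := Nat.exists_eq_add_of_le hbn
    rw [pow_succ, hc, hd]
    simp only [Nat.succ_eq_add_one, zero_add, Nat.add_sub_cancel_left]
    have : (1 + c) * (1 + d) = 1 + (d + (1 + d) * c) := by ring
    rw [this]
    simp
  rw [h2, Nat.add_mul_mod_self_left]
  exact Nat.mod_eq_of_lt (by omega)

theorem wd_lt (q : ℕ) (x : ℝ) (k : ℕ) : wd b q x k < b ^ q := by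
  have hb := bpos (b := b)
  unfold wd
  rw [Nat.floor_lt (by have := Int.fract_nonneg ((b : ℝ) ^ k * x); positivity)]
  push_cast
  have h := Int.fract_lt_one ((b : ℝ) ^ k * x)
  calc (b : ℝ) ^ q * Int.fract ((b : ℝ) ^ k * x) < (b : ℝ) ^ q * 1 :=
        mul_lt_mul_of_pos_left h (by positivity)
    _ = _ := mul_one _

theorem tent_lip (c r : ℝ) (x y : UnitAddCircle) :
    |max 0 (r - dist x (c : UnitAddCircle)) - max 0 (r - dist y (c : UnitAddCircle))| ≤ dist x y := by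
  have h := abs_max_sub_max_le_max (0:ℝ) (r - dist x (c : UnitAddCircle)) 0
    (r - dist y (c : UnitAddCircle))
  refine h.trans ?_
  rw [sub_self, abs_zero]
  refine max_le dist_nonneg ?_
  have h1 : r - dist x (c : UnitAddCircle) - (r - dist y (c : UnitAddCircle)) =
      dist y (c : UnitAddCircle) - dist x (c : UnitAddCircle) := by ring
  rw [h1, dist_comm x y]
  exact abs_dist_sub_le _ _ _

/-- The tent function on the cell `[w/b^q, (w+1)/b^q]`. -/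
noncomputable def tent (b q w : ℕ) : LipS1 :=
  ⟨fun x => max 0 (1 / (2 * (b : ℝ) ^ q) - dist x (((w + 1 / 2 : ℝ) / (b : ℝ) ^ q : ℝ) : UnitAddCircle)),
    1, by
      refine LipschitzWith.of_dist_le_mul fun x y => ?_
      rw [NNReal.coe_one, one_mul, Real.dist_eq]
      exact tent_lip _ _ x y⟩

theorem tent_apply (b q w : ℕ) (x : UnitAddCircle) : tent b q w x =
    max 0 (1 / (2 * (b : ℝ) ^ q) - dist x (((w + 1 / 2 : ℝ) / (b : ℝ) ^ q : ℝ) : UnitAddCircle)) :=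
  rfl

theorem tent_nonneg (b q w : ℕ) (x : UnitAddCircle) : 0 ≤ tent b q w x := le_max_left _ _

theorem tent_le (q w : ℕ) (x : UnitAddCircle) : tent b q w x ≤ 1 := by
  rw [tent_apply]
  refine max_le zero_le_one ?_
  have h1 : (1:ℝ) ≤ (b : ℝ) ^ q := one_le_pow₀ bone
  have h2 : 1 / (2 * (b : ℝ) ^ q) ≤ 1 := by
    rw [div_le_one (by positivity)]
    linarith
  have := dist_nonneg (x := x) (y := (((w + 1 / 2 : ℝ) / (b : ℝ) ^ q : ℝ) : UnitAddCircle))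
  linarith

theorem norm_tent_le (q w : ℕ) : ‖tent b q w‖ ≤ 2 := by
  rw [LipS1.norm_def]
  have h1 : LipS1.supNorm (tent b q w) ≤ 1 := by
    refine ciSup_le fun x => ?_
    rw [abs_of_nonneg (tent_nonneg _ _ _ _)]
    exact tent_le q w x
  have h2 : LipS1.lipConst (tent b q w) ≤ 1 := by
    refine ciSup_le fun p => ?_
    refine div_le_one_of_le₀ ?_ dist_nonneg
    exact tent_lip _ _ p.1 p.2
  linarith

theorem dist_coe (y c : ℝ) : dist (y : UnitAddCircle) (c : UnitAddCircle) =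
    |(y - c) - round (y - c)| := by
  rw [dist_eq_norm, ← AddCircle.coe_sub, UnitAddCircle.norm_eq]

theorem tent_zero {q w : ℕ} (hw : w < b ^ q) {y : ℝ} (hy : y ∈ Ico (0:ℝ) 1)
    (h : ⌊(b : ℝ) ^ q * y⌋₊ ≠ w) : tent b q w (y : UnitAddCircle) = 0 := by
  have hB : (0:ℝ) < (b : ℝ) ^ q := pow_pos bpos q
  rw [tent_apply]
  refine max_eq_left ?_
  rw [sub_nonpos, dist_coe]
  set c : ℝ := (w + 1 / 2 : ℝ) / (b : ℝ) ^ q with hc
  set r : ℝ := 1 / (2 * (b : ℝ) ^ q) with hr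
  have hw' : (w : ℝ) + 1 ≤ (b : ℝ) ^ q := by exact_mod_cast hw
  have hcr : c - r = w / (b : ℝ) ^ q := by
    rw [hc, hr]; field_simp; ring
  have hcr' : c + r = (w + 1) / (b : ℝ) ^ q := by
    rw [hc, hr]; field_simp; ring
  have h1 : 0 ≤ c - r := by rw [hcr]; positivity
  have h2 : c + r ≤ 1 := by rw [hcr', div_le_one hB]; exact hw'
  have h3 : r ≤ |y - c| := by
    by_contra hlt
    rw [not_le, abs_lt] at hlt
    apply h
    rw [Nat.floor_eq_iff (by have := hy.1; positivity)]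
    constructor
    · have : w / (b : ℝ) ^ q ≤ y := by rw [← hcr]; linarith
      rw [div_le_iff₀ hB] at this
      linarith
    · have : y < (w + 1) / (b : ℝ) ^ q := by rw [← hcr']; linarith
      rw [lt_div_iff₀ hB] at this
      linarith
  set z := y - c with hz
  have h4 : z ≤ 1 - r := by have := hy.2; linarith
  have h5 : -(1 - r) ≤ z := by have := hy.1; linarith
  rcases lt_trichotomy (round z) 0 with hn | hn | hn
  · have hn' : (round z : ℝ) ≤ -1 := by exact_mod_cast Int.le_sub_one_of_lt hn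
    rw [abs_of_nonneg (by linarith [hy.1, show (0:ℝ) < r by positivity])]
    linarith
  · rw [hn, Int.cast_zero, sub_zero]; exact h3
  · have hn' : (1:ℝ) ≤ (round z : ℝ) := by exact_mod_cast hn
    have : r ≤ -(z - round z) := by linarith
    exact this.trans (neg_le_abs _)

theorem le_tent {q w : ℕ} {y τ : ℝ} (h1 : τ ≤ (b : ℝ) ^ q * y - w)
    (h2 : τ ≤ w + 1 - (b : ℝ) ^ q * y) : τ / (b : ℝ) ^ q ≤ tent b q w (y : UnitAddCircle) := by
  have hB : (0:ℝ) < (b : ℝ) ^ q := pow_pos bpos q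
  rw [tent_apply]
  refine le_trans ?_ (le_max_right _ _)
  rw [dist_coe]
  have h3 := round_le (y - (w + 1 / 2 : ℝ) / (b : ℝ) ^ q) 0
  rw [Int.cast_zero, sub_zero] at h3
  have h4 : |y - (w + 1 / 2 : ℝ) / (b : ℝ) ^ q| ≤ 1 / (2 * (b : ℝ) ^ q) - τ / (b : ℝ) ^ q := by
    rw [abs_le]
    constructor
    · rw [← sub_nonneg]
      have : y - (w + 1 / 2) / (b : ℝ) ^ q - -(1 / (2 * (b : ℝ) ^ q) - τ / (b : ℝ) ^ q) =
          ((b : ℝ) ^ q * y - w - τ) / (b : ℝ) ^ q := by field_simp; ring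
      rw [this]
      exact div_nonneg (by linarith) hB.le
    · rw [← sub_nonneg]
      have : 1 / (2 * (b : ℝ) ^ q) - τ / (b : ℝ) ^ q - (y - (w + 1 / 2) / (b : ℝ) ^ q) =
          (w + 1 - (b : ℝ) ^ q * y - τ) / (b : ℝ) ^ q := by field_simp; ring
      rw [this]
      exact div_nonneg (by linarith) hB.le
  linarith

end

end Pool.Agent.Lib.MP_2cc37a_an
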